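import Mathlib.Data.Int.Star
import Mathlib.Algebra.Order.Ring.Star
import Mathlib.Algebra.Ring.IsFormallyReal
import Mathlib.NumberTheory.Padics.PadicNorm
import Mathlib.Data.Rat.Star
import Mathlib.RingTheory.WittVector.IsPoly
import Mathlib.Tactic

-- ======== part 0: formerly Pool.Agent.MP_b6d9c9_nt.Basic
section MrgPart0

set_option autoImplicit false

open Finset

namespace Pool.Agent.MP_b6d9c9_nt

variable (p : ℕ) [hp : Fact p.Prime]

/-- The rationals that are `p`-integral. -/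
def R : Subring ℚ where
  carrier := {x | padicNorm p x ≤ 1}
  mul_mem' := by
    intro a b ha hb
    simp only [Set.mem_ofPred_eq] at *
    rw [padicNorm.mul]
    exact mul_le_one₀ ha (padicNorm.nonneg _) hb
  one_mem' := by simp
  add_mem' := by
    intro a b ha hb
    simp only [Set.mem_ofPred_eq] at *
    exact padicNorm.nonarchimedean.trans (max_le ha hb)
  zero_mem' := by simp
  neg_mem' := by
    intro a ha
    simp only [Set.mem_ofPred_eq] at *
    rwa [padicNorm.neg]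

/-- Divisibility by `p ^ k` in the ring of `p`-integral rationals. -/
def D (k : ℕ) (x : ℚ) : Prop := ∃ z ∈ R p, x = (p : ℚ) ^ k * z

/-- `p`-adic units. -/
def U (x : ℚ) : Prop := padicNorm p x = 1

variable {p}

lemma mem_R {x : ℚ} : x ∈ R p ↔ padicNorm p x ≤ 1 := Iff.rfl

lemma p_ne : (p : ℚ) ≠ 0 := by exact_mod_cast hp.out.ne_zero

lemma p_mem : (p : ℚ) ∈ R p := natCast_mem _ _

lemma U.mem {x : ℚ} (h : U p x) : x ∈ R p := le_of_eq h

omit hp in
lemma U.ne {x : ℚ} (h : U p x) : x ≠ 0 := by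
  rintro rfl
  simp [U] at h

omit hp in
lemma U_one : U p 1 := padicNorm.one

lemma U.mul {x y : ℚ} (hx : U p x) (hy : U p y) : U p (x * y) := by
  unfold U at *
  rw [padicNorm.mul, hx, hy, one_mul]

lemma U.div {x y : ℚ} (hx : U p x) (hy : U p y) : U p (x / y) := by
  unfold U at *
  rw [padicNorm.div, hx, hy, div_one]

lemma U.inv {x : ℚ} (hx : U p x) : U p x⁻¹ := by
  rw [← one_div]; exact U_one.div hx

omit hp in
lemma U.neg {x : ℚ} (hx : U p x) : U p (-x) := by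
  unfold U at *
  rwa [padicNorm.neg]

lemma U.pow {x : ℚ} (hx : U p x) (n : ℕ) : U p (x ^ n) := by
  induction n with
  | zero => simpa using U_one
  | succ n ih => rw [pow_succ]; exact ih.mul hx

lemma U.inv_mem {x : ℚ} (hx : U p x) : x⁻¹ ∈ R p := hx.inv.mem

lemma div_mem_R {x y : ℚ} (hx : x ∈ R p) (hy : U p y) : x / y ∈ R p := by
  rw [div_eq_mul_inv]; exact mul_mem hx hy.inv_mem

lemma U_prod {ι : Type*} (s : Finset ι) (f : ι → ℚ) (h : ∀ i ∈ s, U p (f i)) :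
    U p (∏ i ∈ s, f i) :=
  Finset.prod_induction f (U p) (fun _ _ => U.mul) U_one h

lemma U_nat {n : ℕ} (h : ¬ p ∣ n) : U p n := (padicNorm.nat_eq_one_iff n).2 h

lemma U_int {n : ℤ} (h : ¬ (p : ℤ) ∣ n) : U p n := (padicNorm.int_eq_one_iff n).2 h

lemma U_nat_lt {n : ℕ} (h0 : 0 < n) (h : n < p) : U p n :=
  U_nat (Nat.not_dvd_of_pos_of_lt h0 h)

lemma U.add_p {x z : ℚ} (hx : U p x) (hz : z ∈ R p) : U p (x + p * z) := by
  have h1 : padicNorm p (p * z) < 1 := by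
    rw [padicNorm.mul]
    exact mul_lt_one_of_nonneg_of_lt_one_left (padicNorm.nonneg _)
      padicNorm.padicNorm_p_lt_one_of_prime hz
  unfold U at *
  rw [padicNorm.add_eq_max_of_ne (by rw [hx]; exact h1.ne'), hx, max_eq_left h1.le]

lemma D.zero (k : ℕ) : D p k 0 := ⟨0, zero_mem _, by simp⟩

lemma D.add {k : ℕ} {x y : ℚ} (hx : D p k x) (hy : D p k y) : D p k (x + y) := by
  obtain ⟨a, ha, rfl⟩ := hx
  obtain ⟨b, hb, rfl⟩ := hy
  exact ⟨a + b, add_mem ha hb, by ring⟩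

lemma D.neg {k : ℕ} {x : ℚ} (hx : D p k x) : D p k (-x) := by
  obtain ⟨a, ha, rfl⟩ := hx
  exact ⟨-a, neg_mem ha, by ring⟩

lemma D.sub {k : ℕ} {x y : ℚ} (hx : D p k x) (hy : D p k y) : D p k (x - y) := by
  rw [sub_eq_add_neg]; exact hx.add hy.neg

lemma D.mul_mem {k : ℕ} {x y : ℚ} (hx : D p k x) (hy : y ∈ R p) : D p k (x * y) := by
  obtain ⟨a, ha, rfl⟩ := hx
  exact ⟨a * y, MulMemClass.mul_mem ha hy, by ring⟩

lemma D.mem_mul {k : ℕ} {x y : ℚ} (hx : D p k x) (hy : y ∈ R p) : D p k (y * x) := by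
  rw [mul_comm]; exact hx.mul_mem hy

lemma D.mul {k l : ℕ} {x y : ℚ} (hx : D p k x) (hy : D p l y) : D p (k + l) (x * y) := by
  obtain ⟨a, ha, rfl⟩ := hx
  obtain ⟨b, hb, rfl⟩ := hy
  exact ⟨a * b, MulMemClass.mul_mem ha hb, by ring⟩

lemma D.mono {k l : ℕ} {x : ℚ} (hx : D p k x) (h : l ≤ k) : D p l x := by
  obtain ⟨a, ha, rfl⟩ := hx
  obtain ⟨m, rfl⟩ := Nat.exists_eq_add_of_le h
  exact ⟨p ^ m * a, MulMemClass.mul_mem (pow_mem p_mem _) ha, by ring⟩

lemma D.mem {k : ℕ} {x : ℚ} (hx : D p k x) : x ∈ R p := by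
  obtain ⟨a, ha, rfl⟩ := hx
  exact MulMemClass.mul_mem (pow_mem p_mem _) ha

lemma D.of_mem {x : ℚ} (hx : x ∈ R p) : D p 0 x := ⟨x, hx, by simp⟩

lemma D.congr {k : ℕ} {x y : ℚ} (hx : D p k x) (h : y = x) : D p k y := h ▸ hx

lemma D.pow_mul (k : ℕ) {l : ℕ} {x : ℚ} (hx : D p l x) : D p (k + l) ((p : ℚ) ^ k * x) := by
  obtain ⟨a, ha, rfl⟩ := hx
  exact ⟨a, ha, by ring⟩

lemma D.p_mul {l : ℕ} {x : ℚ} (hx : D p l x) : D p (l + 1) ((p : ℚ) * x) := by
  obtain ⟨a, ha, rfl⟩ := hx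
  exact ⟨a, ha, by ring⟩

lemma D_p_mul {x : ℚ} (hx : x ∈ R p) : D p 1 ((p : ℚ) * x) := ⟨x, hx, by ring⟩

lemma D_pow_mul (k : ℕ) {x : ℚ} (hx : x ∈ R p) : D p k ((p : ℚ) ^ k * x) := ⟨x, hx, rfl⟩

lemma D.cancel {k l : ℕ} {x : ℚ} (hx : D p (k + l) ((p : ℚ) ^ k * x)) : D p l x := by
  obtain ⟨a, ha, h⟩ := hx
  refine ⟨a, ha, ?_⟩
  have : (p : ℚ) ^ k ≠ 0 := pow_ne_zero _ p_ne
  apply mul_left_cancel₀ this
  rw [h]; ring

lemma D_sum {ι : Type*} {k : ℕ} (s : Finset ι) (f : ι → ℚ) (h : ∀ i ∈ s, D p k (f i)) :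
    D p k (∑ i ∈ s, f i) :=
  Finset.sum_induction f (D p k) (fun _ _ => D.add) (D.zero k) h

lemma D_sum_sub {ι : Type*} {k : ℕ} (s : Finset ι) (f g : ι → ℚ)
    (h : ∀ i ∈ s, D p k (f i - g i)) : D p k (∑ i ∈ s, f i - ∑ i ∈ s, g i) := by
  rw [← Finset.sum_sub_distrib]; exact D_sum s _ h

lemma D.trans {k : ℕ} {x y z : ℚ} (h1 : D p k (x - y)) (h2 : D p k (y - z)) : D p k (x - z) :=
  (h1.add h2).congr (by ring)

lemma D.symm {k : ℕ} {x y : ℚ} (h1 : D p k (x - y)) : D p k (y - x) :=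
  h1.neg.congr (by ring)

lemma D.mem_of_sub {k : ℕ} {x y : ℚ} (h : D p k (x - y)) (hy : y ∈ R p) : x ∈ R p := by
  have := add_mem h.mem hy
  rwa [sub_add_cancel] at this

lemma D.cmul {k : ℕ} {x y x' y' : ℚ} (h : D p k (x - y)) (h' : D p k (x' - y'))
    (hy : y ∈ R p) (hy' : y' ∈ R p) : D p k (x * x' - y * y') :=
  ((h.mul_mem (h'.mem_of_sub hy')).add (h'.mem_mul hy)).congr (by ring)

lemma D.cpow {k : ℕ} {x y : ℚ} (h : D p k (x - y)) (hy : y ∈ R p) (n : ℕ) :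
    D p k (x ^ n - y ^ n) := by
  induction n with
  | zero => simpa using D.zero k
  | succ n ih => rw [pow_succ, pow_succ]; exact ih.cmul h (pow_mem hy _) hy

lemma D_cprod {ι : Type*} {k : ℕ} (s : Finset ι) (f g : ι → ℚ)
    (h : ∀ i ∈ s, D p k (f i - g i)) (hg : ∀ i ∈ s, g i ∈ R p) :
    D p k (∏ i ∈ s, f i - ∏ i ∈ s, g i) := by
  classical
  induction s using Finset.induction_on with
  | empty => simpa using D.zero k
  | insert a s ha ih =>
    rw [prod_insert ha, prod_insert ha]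
    exact (h a (mem_insert_self _ _)).cmul
      (ih (fun i hi => h i (mem_insert_of_mem hi)) (fun i hi => hg i (mem_insert_of_mem hi)))
      (hg a (mem_insert_self _ _))
      (prod_mem (fun i hi => hg i (mem_insert_of_mem hi)))

lemma D.unit {k : ℕ} {x y : ℚ} (h : D p (k + 1) (x - y)) (hy : U p y) : U p x := by
  obtain ⟨a, ha, h⟩ := h
  have : x = y + p * (p ^ k * a) := by linear_combination h
  rw [this]
  exact hy.add_p (MulMemClass.mul_mem (pow_mem p_mem _) ha)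

lemma D.cinv {k : ℕ} {x y : ℚ} (h : D p (k + 1) (x - y)) (hy : U p y) :
    D p (k + 1) (x⁻¹ - y⁻¹) := by
  have hx := h.unit hy
  have := (h.neg.mul_mem hx.inv_mem).mul_mem hy.inv_mem
  refine this.congr ?_
  have := hx.ne
  have := hy.ne
  field_simp
  ring

/-- Congruent to one modulo `p ^ k`. -/
def E (p : ℕ) [Fact p.Prime] (k : ℕ) (x : ℚ) : Prop := D p k (x - 1)

lemma E.mem {k : ℕ} {x : ℚ} (h : E p k x) : x ∈ R p := D.mem_of_sub h (one_mem _)

lemma E_one (k : ℕ) : E p k 1 := by simpa [E] using D.zero k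

lemma E.mul {k : ℕ} {x y : ℚ} (hx : E p k x) (hy : E p k y) : E p k (x * y) := by
  have := D.cmul hx hy (one_mem _) (one_mem _)
  simpa [E] using this

lemma E.pow {k : ℕ} {x : ℚ} (hx : E p k x) (n : ℕ) : E p k (x ^ n) := by
  have := D.cpow hx (one_mem _) n
  simpa [E] using this

lemma E.unit {k : ℕ} {x : ℚ} (hx : E p (k + 1) x) : U p x := D.unit hx U_one

lemma E.inv {k : ℕ} {x : ℚ} (hx : E p (k + 1) x) : E p (k + 1) x⁻¹ := by
  have := D.cinv hx U_one
  simpa [E] using this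

lemma E.div {k : ℕ} {x y : ℚ} (hx : E p (k + 1) x) (hy : E p (k + 1) y) :
    E p (k + 1) (x / y) := by
  rw [div_eq_mul_inv]; exact hx.mul hy.inv

lemma E.mono {k l : ℕ} {x : ℚ} (hx : E p k x) (h : l ≤ k) : E p l x := D.mono hx h

lemma E_prod {ι : Type*} {k : ℕ} (s : Finset ι) (f : ι → ℚ) (h : ∀ i ∈ s, E p k (f i)) :
    E p k (∏ i ∈ s, f i) :=
  Finset.prod_induction f (E p k) (fun _ _ => E.mul) (E_one k) h

lemma E.exists {k : ℕ} {x : ℚ} (h : E p k x) : ∃ z ∈ R p, x = 1 + (p : ℚ) ^ k * z := by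
  obtain ⟨z, hz, h⟩ := h
  exact ⟨z, hz, by linear_combination h⟩

lemma E_div_of_D {k : ℕ} {x y : ℚ} (h : D p k (x - y)) (hy : U p y) : E p k (x / y) := by
  have := h.mul_mem hy.inv_mem
  refine this.congr ?_
  have := hy.ne
  field_simp

/-- First order expansion of a product. -/
lemma prod_one_add {ι : Type*} {k : ℕ} (s : Finset ι) (f : ι → ℚ) (h : ∀ i ∈ s, D p k (f i)) :
    D p (k + k) (∏ i ∈ s, (1 + f i) - (1 + ∑ i ∈ s, f i)) := by
  classical
  induction s using Finset.induction_on with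
  | empty => simpa using D.zero (k + k)
  | insert a s ha ih =>
    rw [prod_insert ha, sum_insert ha]
    have h1 := ih (fun i hi => h i (mem_insert_of_mem hi))
    have h2 := h a (mem_insert_self _ _)
    have h3 := D_sum s f (fun i hi => h i (mem_insert_of_mem hi))
    exact ((h1.mem_mul (add_mem (one_mem _) h2.mem)).add (h2.mul h3)).congr (by ring)

/-- A product of terms `1 + p ^ 2 z` whose `z` sum to zero modulo `p` is one modulo `p ^ 3`. -/
lemma E3_prod {ι : Type*} (s : Finset ι) (f : ι → ℚ) (h : ∀ i ∈ s, D p 2 (f i))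
    (hs : D p 3 (∑ i ∈ s, f i)) : E p 3 (∏ i ∈ s, (1 + f i)) :=
  (((prod_one_add s f h).mono (by norm_num : 3 ≤ 2 + 2)).add hs).congr (by ring)

lemma D_int {k : ℕ} {z : ℤ} (h : (p : ℤ) ^ k ∣ z) : D p k z := by
  obtain ⟨w, rfl⟩ := h
  exact ⟨w, intCast_mem _ _, by push_cast; ring⟩

lemma fermat {n : ℕ} (h : ¬ p ∣ n) : E p 1 ((n : ℚ) ^ (p - 1)) := by
  have hc : Nat.Coprime n p := ((Nat.Prime.coprime_iff_not_dvd hp.out).2 h).symm
  have h1 := Nat.ModEq.pow_totient hc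
  rw [Nat.totient_prime hp.out] at h1
  have h2 := (Nat.modEq_iff_dvd.1 h1.symm)
  have := D_int (p := p) (k := 1) (by simpa using h2)
  simpa [E] using this

lemma D.padicNorm_le {k : ℕ} {x : ℚ} (h : D p k x) : padicNorm p x ≤ (p : ℚ) ^ (-(k : ℤ)) := by
  obtain ⟨z, hz, rfl⟩ := h
  rw [padicNorm.mul]
  have h1 : padicNorm p ((p : ℚ) ^ k) ≤ (p : ℚ) ^ (-(k : ℤ)) := by
    have := (padicNorm.dvd_iff_norm_le (p := p) (n := k) (z := (p : ℤ) ^ k)).1 (by simp)
    simpa using this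
  calc padicNorm p ((p : ℚ) ^ k) * padicNorm p z ≤ (p : ℚ) ^ (-(k : ℤ)) * 1 :=
        mul_le_mul h1 hz (padicNorm.nonneg _) (by positivity)
    _ = _ := mul_one _

lemma D.val {k : ℕ} {x : ℚ} (h : D p k x) (hx : x ≠ 0) : (k : ℤ) ≤ padicValRat p x := by
  have h1 := h.padicNorm_le
  rw [padicNorm.eq_zpow_of_nonzero hx] at h1
  have hp1 : (1 : ℚ) < p := by exact_mod_cast hp.out.one_lt
  have := (zpow_le_zpow_iff_right₀ hp1).1 h1
  omega

/-- Binomial expansion to second order. -/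
lemma pow_expand {z : ℚ} (hz : z ∈ R p) (m : ℕ) :
    ∃ w ∈ R p, (1 + z) ^ m = 1 + m * z + (m * (m - 1) / 2) * z ^ 2 + z ^ 3 * w := by
  induction m with
  | zero => exact ⟨0, zero_mem _, by simp⟩
  | succ m ih =>
    obtain ⟨w, hw, h⟩ := ih
    refine ⟨(m.choose 2 : ℕ) + w * (1 + z), add_mem (natCast_mem _ _)
      (mul_mem hw (add_mem (one_mem _) hz)), ?_⟩
    rw [pow_succ, h, Nat.cast_choose_two]
    push_cast
    ring

lemma pow_lte (h2 : U p 2) {x : ℚ} (hx : x ∈ R p) (n : ℕ) :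
    ∃ w ∈ R p, (1 + p * x) ^ n = 1 + n * p * x + n * p ^ 2 * w := by
  induction n using Nat.strong_induction_on with
  | _ n ih =>
    by_cases hn : p ∣ n
    · obtain ⟨m, rfl⟩ := hn
      rcases Nat.eq_zero_or_pos m with rfl | hm
      · exact ⟨0, zero_mem _, by simp⟩
      obtain ⟨w, hw, h⟩ := ih m (by nlinarith [hp.out.two_le])
      have hy : x + p * w ∈ R p := add_mem hx (mul_mem p_mem hw)
      obtain ⟨w', hw', h'⟩ := pow_expand (p := p) (z := m * p * (x + p * w))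
        (mul_mem (mul_mem (natCast_mem _ _) p_mem) hy) p
      refine ⟨w + (p - 1) * (2 : ℚ)⁻¹ * m * (x + p * w) ^ 2
        + m ^ 2 * (x + p * w) ^ 3 * w', ?_, ?_⟩
      · exact add_mem (add_mem hw (mul_mem (mul_mem (mul_mem (sub_mem p_mem (one_mem _))
          h2.inv_mem) (natCast_mem _ _)) (pow_mem hy _)))
          (mul_mem (mul_mem (pow_mem (natCast_mem _ _) _) (pow_mem hy _)) hw')
      · have hp0 : (p : ℚ) ≠ 0 := p_ne
        rw [mul_comm p m, pow_mul, h]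
        have e : (1 : ℚ) + m * p * x + m * p ^ 2 * w = 1 + m * p * (x + p * w) := by ring
        rw [e, h']
        push_cast
        field_simp
        ring
    · obtain ⟨w, hw, h⟩ := pow_expand (p := p) (z := p * x) (mul_mem p_mem hx) n
      have hU := U_nat hn
      refine ⟨(n - 1) * 2⁻¹ * x ^ 2 + p * x ^ 3 * w * (n : ℚ)⁻¹, ?_, ?_⟩
      · exact add_mem (mul_mem (mul_mem (sub_mem (natCast_mem _ _) (one_mem _)) h2.inv_mem)
          (pow_mem hx _)) (mul_mem (mul_mem (mul_mem p_mem (pow_mem hx _)) hw) hU.inv_mem)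
      · rw [h]
        have := hU.ne
        field_simp
        ring

end Pool.Agent.MP_b6d9c9_nt

end MrgPart0

-- ======== part 1: formerly Pool.Agent.MP_b6d9c9_nt.Ident
section MrgPart1

set_option autoImplicit false

open Finset

namespace Pool.Agent.MP_b6d9c9_nt

/-- `C i = binom(2i, i) / 4 ^ i`. -/
def C (i : ℕ) : ℚ := ∏ t ∈ range i, ((2 * t + 1 : ℚ) / (2 * t + 2))

def c (i : ℕ) : ℚ := C i * (3 / 4) ^ i

/-- `Dn N u = binom(u + N, N) * binom(u, N)`. -/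
def Dn (N : ℕ) (u : ℚ) : ℚ := ∏ s ∈ range N, ((u + s + 1) * (u - s) / ((s : ℚ) + 1) ^ 2)

def uu (N i : ℕ) : ℚ := 2 * N - i - 1 / 2

def term (N i : ℕ) : ℚ := c i * ((N : ℚ) ^ 2 * Dn N (uu N i) / (uu N i + N))

def S (N : ℕ) : ℚ :=
  ∑ k ∈ range N, (28 * k + 3 : ℚ) * (((4 * k).factorial : ℚ) / (k.factorial : ℚ) ^ 4) /
    (-3 * 2 ^ 12 : ℚ) ^ k

lemma C_zero : C 0 = 1 := by simp [C]

lemma C_succ (i : ℕ) : C (i + 1) = C i * ((2 * i + 1) / (2 * i + 2)) :=
  prod_range_succ _ _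

lemma c_zero : c 0 = 1 := by simp [c, C]

lemma c_succ (i : ℕ) : c (i + 1) = c i * (3 / 4 * ((2 * i + 1) / (2 * i + 2))) := by
  simp only [c, C_succ]; ring

lemma C_pos (i : ℕ) : 0 < C i := prod_pos (fun t _ => by positivity)

lemma Dn_succ (N : ℕ) (u : ℚ) :
    Dn (N + 1) u = Dn N u * ((u + N + 1) * (u - N) / ((N : ℚ) + 1) ^ 2) :=
  prod_range_succ _ _

lemma Dn_shift (N : ℕ) (u : ℚ) : Dn N (u + 1) * (u + 1 - N) = Dn N u * (u + 1 + N) := by
  induction N with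
  | zero => simp [Dn]
  | succ N ih =>
    rw [Dn_succ, Dn_succ]
    push_cast
    have : ((N : ℚ) + 1) ≠ 0 := by positivity
    field_simp
    linear_combination (u + N + 2) * (u - N) * ih

lemma half_ne (a : ℤ) : (a : ℚ) - 1 / 2 ≠ 0 := by
  intro h
  have h2 : ((2 * a : ℤ) : ℚ) = (1 : ℤ) := by push_cast; linarith
  have : 2 * a = 1 := by exact_mod_cast h2
  omega

lemma Dn_neg_half (n : ℕ) : Dn n (-1 / 2) = (-1) ^ n * C n ^ 2 := by
  induction n with
  | zero => simp [Dn, C]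
  | succ n ih =>
    rw [Dn_succ, C_succ, ih]
    field_simp
    ring

lemma multinomial_eq (n : ℕ) :
    ((4 * n).factorial : ℚ) / (n.factorial : ℚ) ^ 4 = 256 ^ n * C (2 * n) * C n ^ 2 := by
  induction n with
  | zero => simp [C]
  | succ n ih =>
    have e1 : 4 * (n + 1) = 4 * n + 1 + 1 + 1 + 1 := by ring
    have e2 : 2 * (n + 1) = 2 * n + 1 + 1 := by ring
    rw [e1, e2, C_succ, C_succ, C_succ]
    simp only [Nat.factorial_succ]
    push_cast
    have h1 : (n.factorial : ℚ) ≠ 0 := by positivity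
    rw [div_eq_iff (by positivity)] at ih
    rw [ih]
    field_simp
    ring

def ff (N i : ℕ) : ℚ := 48 / 27 ^ N * term N i

def gg (n m : ℕ) : ℚ :=
  4 / 3 / 27 ^ n * c m * Dn n (2 * n + 1 / 2 - m) *
    (56 * n ^ 2 + (36 * ((m : ℚ) - 2 * n - 1) + 34) * n +
      (2 * ((m : ℚ) - 2 * n - 1) + 1) * (2 * ((m : ℚ) - 2 * n - 1) + 3)) / (m - 1 / 2)

lemma Dn_pair (n : ℕ) (a : ℤ) : ∃ X : ℚ, Dn n (a - 1 / 2) = X * (a - 1 / 2 + n) ∧
    Dn n (a - 1 / 2 - 1) = X * (a - 1 / 2 - n) := by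
  have h : (a : ℚ) - 1 / 2 + n ≠ 0 := by
    have := half_ne (a + n)
    push_cast at this
    intro h; apply this; linarith
  refine ⟨Dn n (a - 1 / 2) / (a - 1 / 2 + n), (div_mul_cancel₀ _ h).symm, ?_⟩
  have := Dn_shift n (a - 1 / 2 - 1)
  rw [sub_add_cancel] at this
  rw [div_mul_eq_mul_div, eq_div_iff h, this]

lemma ff_succ (n i : ℕ) :
    ff (n + 1) i = 16 / 9 / 27 ^ n * c i * Dn n (uu (n + 1) i) * (uu (n + 1) i - n) := by
  have h : uu (n + 1) i + ((n : ℚ) + 1) ≠ 0 := by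
    have := half_ne (2 * (n + 1) - i + (n + 1))
    push_cast at this
    intro h; apply this; unfold uu at h; push_cast at h; linarith
  unfold ff term
  rw [Dn_succ]
  push_cast
  have h' : uu (n + 1) i + n + 1 ≠ 0 := by rwa [add_assoc]
  field_simp
  ring

lemma wz0 (n : ℕ) : ff (n + 1) 0 = gg n 0 := by
  rw [ff_succ]
  obtain ⟨X, h1, h2⟩ := Dn_pair n (2 * n + 2)
  have e1 : uu (n + 1) 0 = ((2 * n + 2 : ℤ) : ℚ) - 1 / 2 := by unfold uu; push_cast; ring
  have e2 : (2 * n + 1 / 2 - (0 : ℕ) : ℚ) = ((2 * n + 2 : ℤ) : ℚ) - 1 / 2 - 1 := by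
    push_cast; ring
  unfold gg
  rw [e1, e2, h1, h2, c_zero]
  push_cast
  field_simp
  ring

lemma wz1 (n : ℕ) : ff (n + 1) 1 = gg n 1 - gg n 0 := by
  rw [ff_succ]
  obtain ⟨X, h1, h2⟩ := Dn_pair n (2 * n + 1)
  have e1 : uu (n + 1) 1 = ((2 * n + 1 : ℤ) : ℚ) - 1 / 2 := by unfold uu; push_cast; ring
  have e2 : (2 * n + 1 / 2 - (1 : ℕ) : ℚ) = ((2 * n + 1 : ℤ) : ℚ) - 1 / 2 - 1 := by
    push_cast; ring
  have e3 : (2 * n + 1 / 2 - (0 : ℕ) : ℚ) = ((2 * n + 1 : ℤ) : ℚ) - 1 / 2 := by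
    push_cast; ring
  unfold gg
  rw [e1, e2, e3, h1, h2, c_succ, c_zero]
  push_cast
  field_simp
  ring

lemma wz2 (n i : ℕ) : ff (n + 1) (i + 2) - ff n i = gg n (i + 2) - gg n (i + 1) := by
  rw [ff_succ]
  obtain ⟨X, h1, h2⟩ := Dn_pair n (2 * n - i)
  have e0 : uu n i = ((2 * n - i : ℤ) : ℚ) - 1 / 2 := by unfold uu; push_cast; ring
  have e1 : uu (n + 1) (i + 2) = ((2 * n - i : ℤ) : ℚ) - 1 / 2 := by unfold uu; push_cast; ring
  have e2 : (2 * n + 1 / 2 - (i + 2 : ℕ) : ℚ) = ((2 * n - i : ℤ) : ℚ) - 1 / 2 - 1 := by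
    push_cast; ring
  have e3 : (2 * n + 1 / 2 - (i + 1 : ℕ) : ℚ) = ((2 * n - i : ℤ) : ℚ) - 1 / 2 := by
    push_cast; ring
  have h : ((2 * n - i : ℤ) : ℚ) - 1 / 2 + n ≠ 0 := by
    have := half_ne (2 * n - i + n)
    push_cast at this ⊢
    intro h; apply this; linarith
  unfold gg ff term
  rw [e0, e1, e2, e3, h1, h2, mul_div_assoc, mul_div_cancel_right₀ _ h, c_succ, c_succ]
  push_cast
  have a1 : (i : ℚ) + 2 - 1 / 2 ≠ 0 := by
    have : (0 : ℚ) ≤ i := by positivity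
    linarith
  have a2 : (i : ℚ) + 1 - 1 / 2 ≠ 0 := by
    have : (0 : ℚ) ≤ i := by positivity
    linarith
  have b1 : (i : ℚ) + 2 - 1 / 2 = (2 * i + 3) / 2 := by ring
  have b2 : (i : ℚ) + 1 - 1 / 2 = (2 * i + 1) / 2 := by ring
  rw [b1, b2]
  field_simp
  ring

lemma gg_last (n : ℕ) : gg n (2 * n + 1) =
    (28 * n + 3 : ℚ) * (((4 * n).factorial : ℚ) / (n.factorial : ℚ) ^ 4) / (-3 * 2 ^ 12 : ℚ) ^ n := by
  unfold gg
  have e : (2 * n + 1 / 2 - (2 * n + 1 : ℕ) : ℚ) = -1 / 2 := by push_cast; ring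
  rw [e, Dn_neg_half, multinomial_eq, c_succ, c]
  push_cast
  have b1 : (2 * n + 1 - 1 / 2 : ℚ) = (4 * n + 1) / 2 := by ring
  have b2 : (-3 * 2 ^ 12 : ℚ) ^ n = (-1) ^ n * (3 ^ n * 16 ^ n * 256 ^ n) := by
    rw [← mul_pow, ← mul_pow, ← mul_pow]; norm_num
  have b3 : (3 / 4 : ℚ) ^ (2 * n) = 3 ^ n * 3 ^ n / 16 ^ n := by
    rw [pow_mul, ← mul_pow, ← div_pow]; norm_num
  have b4 : (27 : ℚ) ^ n = 3 ^ n * 3 ^ n * 3 ^ n := by
    rw [← mul_pow, ← mul_pow]; norm_num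
  have b5 : ((-1 : ℚ) ^ n) ^ 2 = 1 := by rw [← pow_mul, mul_comm, pow_mul]; simp
  rw [b1, b2, b3, b4]
  field_simp
  rw [b5]
  ring

lemma wz_sum (n M : ℕ) :
    ∑ i ∈ range (M + 2), ff (n + 1) i - ∑ i ∈ range M, ff n i = gg n (M + 1) := by
  induction M with
  | zero => simp [sum_range_succ, wz0, wz1]
  | succ M ih =>
    rw [sum_range_succ _ (M + 2), sum_range_succ _ M]
    linear_combination ih + wz2 n M

theorem S_eq (N : ℕ) : S N = 48 / 27 ^ N * ∑ i ∈ range (2 * N), term N i := by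
  rw [mul_sum]
  change S N = ∑ i ∈ range (2 * N), ff N i
  induction N with
  | zero => simp [S]
  | succ n ih =>
    have := wz_sum n (2 * n)
    rw [gg_last] at this
    rw [S, sum_range_succ, ← S, ih, show 2 * (n + 1) = 2 * n + 2 by ring]
    linear_combination -this

/-- A hypergeometric term at the argument `4 / 3`. -/
def hy (a b c d : ℚ) (r : ℕ) : ℚ := ∏ j ∈ range r, ((a + j) * (b + j) * 4 / ((c + j) * (d + j) * 3))

def th (a b c d : ℚ) (k : ℕ) : ℚ :=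
  (4 / 3) ^ (k + 1) * (∏ j ∈ range (k + 1), (a + j)) * (∏ j ∈ range k, (b + 1 + j)) *
    ((∏ j ∈ range (k + 1), (c + j)⁻¹) * ∏ j ∈ range (k + 1), (d + j)⁻¹)

lemma hy_zero (a b c d : ℚ) : hy a b c d 0 = 1 := by simp [hy]

lemma hy_succ (a b c d : ℚ) (r : ℕ) :
    hy a b c d (r + 1) = hy a b c d r * ((a + r) * (b + r) * 4 / ((c + r) * (d + r) * 3)) :=
  prod_range_succ _ _

lemma hy_eq_th (a b c d : ℚ) (k : ℕ) : hy a b c d (k + 1) = b * th a b c d k := by
  induction k with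
  | zero => simp [hy, th, div_eq_mul_inv]; ring
  | succ k ih =>
    rw [hy_succ, ih]
    unfold th
    rw [prod_range_succ _ (k + 1), prod_range_succ (fun j : ℕ => b + 1 + j) k,
      prod_range_succ (fun j : ℕ => (c + j)⁻¹) (k + 1),
      prod_range_succ (fun j : ℕ => (d + j)⁻¹) (k + 1)]
    push_cast
    simp only [div_eq_mul_inv, mul_inv]
    ring

lemma sum_hy (a b c d : ℚ) (n : ℕ) :
    ∑ r ∈ range (n + 1), hy a b c d r = 1 + b * ∑ k ∈ range n, th a b c d k := by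
  rw [sum_range_succ', hy_zero, mul_sum, add_comm]
  simp [hy_eq_th]

lemma hy_eq_zero_left (n : ℕ) (b c d : ℚ) {r : ℕ} (h : n < r) : hy (-n) b c d r = 0 :=
  prod_eq_zero (mem_range.2 h) (by simp)

lemma hy_eq_zero_right (n : ℕ) (a c d : ℚ) {r : ℕ} (h : n < r) : hy a (-n) c d r = 0 :=
  prod_eq_zero (mem_range.2 h) (by simp)

/-! ### The evaluation `2F1(-n, 2n+1; 1/2-n; 4/3) = 9 ^ n` -/

def st (n k : ℕ) : ℚ := hy (-n) (2 * n + 1) (1 / 2 - n) 1 k

lemma odd_ne (a : ℤ) : (2 * a + 1 : ℚ) ≠ 0 := by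
  intro h
  have h2 : ((2 * a + 1 : ℤ) : ℚ) = (0 : ℤ) := by push_cast; linarith
  have : 2 * a + 1 = 0 := by exact_mod_cast h2
  omega

lemma st_succ (n k : ℕ) : st n (k + 1) =
    st n k * (-8 * (k - n) * (2 * n + 1 + k) / ((2 * n - 1 - 2 * k) * (1 + k) * 3)) := by
  unfold st
  rw [hy_succ]
  congr 1
  have h : (2 * n - 1 - 2 * k : ℚ) ≠ 0 := by
    have := odd_ne (n - k - 1); push_cast at this; intro h; apply this; linarith
  have h' : (1 / 2 - n + k : ℚ) = -(2 * n - 1 - 2 * k) / 2 := by ring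
  rw [h']
  field_simp
  ring

lemma st_rel (n k : ℕ) : st n k = st (n + 1) k * (2 * (n + 1 - k) * (2 * n + 1) ^ 2 /
    ((2 * n + 1 + k) * (2 * n + 2 + k) * (2 * n + 1 - 2 * k))) := by
  induction k with
  | zero =>
    simp [st, hy_zero]
    field_simp
  | succ k ih =>
    rw [st_succ, st_succ, ih]
    have h : (2 * n - 1 - 2 * k : ℚ) ≠ 0 := by
      have := odd_ne (n - k - 1); push_cast at this; intro h; apply this; linarith
    have h2 : (2 * n + 1 - 2 * k : ℚ) ≠ 0 := by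
      have := odd_ne (n - k); push_cast at this; intro h; apply this; linarith
    push_cast
    have e1 : (2 * (n + 1) - 1 - 2 * k : ℚ) = 2 * n + 1 - 2 * k := by ring
    have e2 : (2 * n + 1 - 2 * (k + 1) : ℚ) = 2 * n - 1 - 2 * k := by ring
    rw [e1, e2]
    field_simp
    ring

lemma st_tele (n K : ℕ) : ∑ k ∈ range K, (st (n + 1) k - 9 * st n k) =
    -3 * K * (4 * n + 3 - K) / ((2 * n + 1 + K) * (2 * n + 2 + K)) * st (n + 1) K := by
  induction K with
  | zero => simp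
  | succ K ih =>
    rw [sum_range_succ, ih, st_rel n K, st_succ (n + 1) K]
    have h2 : (2 * n + 1 - 2 * K : ℚ) ≠ 0 := by
      have := odd_ne (n - K); push_cast at this; intro h; apply this; linarith
    push_cast
    have e1 : (2 * (n + 1) - 1 - 2 * K : ℚ) = 2 * n + 1 - 2 * K := by ring
    rw [e1]
    obtain ⟨d, hd⟩ : ∃ d : ℚ, d = 2 * n + 1 - 2 * K := ⟨_, rfl⟩
    rw [← hd] at h2 ⊢
    field_simp
    rw [hd]
    ring

theorem st_sum (n : ℕ) : ∀ K, n < K → ∑ k ∈ range K, st n k = 9 ^ n := by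
  induction n with
  | zero =>
    intro K hK
    obtain ⟨K, rfl⟩ := Nat.exists_eq_add_of_lt hK
    rw [sum_range_succ', sum_eq_zero]
    · simp [st, hy_zero]
    · intro k _
      exact hy_eq_zero_left 0 _ _ _ (by omega)
  | succ n ih =>
    intro K hK
    have h := st_tele n K
    have h0 : st (n + 1) K = 0 := hy_eq_zero_left (n + 1) _ _ _ hK
    rw [h0, sum_sub_distrib, ← mul_sum, ih K (by omega)] at h
    rw [pow_succ]
    linear_combination h

/-! ### The Lucas type identity -/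

def bin (y : ℚ) (k : ℕ) : ℚ := (∏ s ∈ range k, (y - s)) / k.factorial

lemma bin_zero (y : ℚ) : bin y 0 = 1 := by simp [bin]

lemma bin_succ (y : ℚ) (k : ℕ) : bin y (k + 1) = bin y k * (y - k) / (k + 1) := by
  unfold bin
  rw [prod_range_succ, Nat.factorial_succ]
  push_cast
  field_simp

lemma bin_succ' (y : ℚ) (k : ℕ) : bin (y + 1) (k + 1) = bin y k * (y + 1) / (k + 1) := by
  unfold bin
  rw [prod_range_succ', Nat.factorial_succ]
  push_cast
  simp only [add_sub_add_right_eq_sub, sub_zero]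
  field_simp

lemma bin_pascal (y : ℚ) (k : ℕ) : bin (y + 1) (k + 1) = bin y k + bin y (k + 1) := by
  rw [bin_succ', bin_succ]
  field_simp
  ring

lemma bin_eq_zero {m k : ℕ} (h : m < k) : bin m k = 0 := by
  unfold bin
  rw [prod_eq_zero (mem_range.2 h) (by simp), zero_div]

lemma bin_self (m : ℕ) : bin m m = 1 := by
  induction m with
  | zero => exact bin_zero _
  | succ m ih =>
    push_cast
    rw [bin_succ', ih]
    field_simp

def fb (n : ℕ) : ℚ := ∑ k ∈ range (n + 1), bin ((n : ℚ) - k) k * (-1 / 3) ^ k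

lemma fb_rec (n : ℕ) : fb (n + 2) = fb (n + 1) - fb n / 3 := by
  unfold fb
  rw [sum_range_succ' _ (n + 2), sum_range_succ _ (n + 1), sum_range_succ' _ (n + 1)]
  have h0 : bin (((n + 2 : ℕ) : ℚ) - (n + 1 + 1 : ℕ)) (n + 1 + 1) = 0 := by
    have : (((n + 2 : ℕ) : ℚ) - (n + 1 + 1 : ℕ)) = (0 : ℕ) := by push_cast; ring
    rw [this]; exact bin_eq_zero (by omega)
  rw [h0, bin_zero, bin_zero, sum_div]
  have : ∀ k ∈ range (n + 1), bin (((n + 2 : ℕ) : ℚ) - (k + 1 : ℕ)) (k + 1) * (-1 / 3) ^ (k + 1) =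
      bin (((n + 1 : ℕ) : ℚ) - (k + 1 : ℕ)) (k + 1) * (-1 / 3) ^ (k + 1) -
        bin ((n : ℚ) - k) k * (-1 / 3) ^ k / 3 := by
    intro k _
    have e1 : (((n + 2 : ℕ) : ℚ) - (k + 1 : ℕ)) = (n - k) + 1 := by push_cast; ring
    have e2 : (((n + 1 : ℕ) : ℚ) - (k + 1 : ℕ)) = (n - k) := by push_cast; ring
    rw [e1, e2, bin_pascal]
    ring
  rw [sum_congr rfl this, sum_sub_distrib]
  ring

lemma fb_zero : fb 0 = 1 := by simp [fb, bin]

lemma fb_one : fb 1 = 1 := by simp [fb, bin, sum_range_succ]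

lemma fb_six (n : ℕ) : fb (n + 6) = -fb n / 27 := by
  have h2 := fb_rec n
  have h3 := fb_rec (n + 1)
  have h4 := fb_rec (n + 2)
  have h5 := fb_rec (n + 3)
  have h6 := fb_rec (n + 4)
  rw [h6, h5, h4, h3, h2]
  ring

lemma fb_mul (j r : ℕ) : fb (6 * j + r) = (-1 / 27) ^ j * fb r := by
  induction j with
  | zero => simp
  | succ j ih =>
    rw [show 6 * (j + 1) + r = 6 * j + r + 6 by ring, fb_six, ih]
    ring

def la (n k : ℕ) : ℚ := hy (1 / 2 - n / 2) (-n / 2) (1 - n) 1 k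

lemma la_eq (n k : ℕ) (hk : k < n) :
    la n k * (n - k) = (-1 / 3) ^ k * n * bin ((n : ℚ) - k) k := by
  induction k with
  | zero => simp [la, hy_zero, bin_zero]
  | succ k ih =>
    have ih := ih (by omega)
    have h1 : (n : ℚ) - k ≠ 0 := by
      have : (k : ℚ) < n := by exact_mod_cast (by omega : k < n)
      linarith
    have h2 : (n : ℚ) - k - 1 ≠ 0 := by
      have : (k : ℚ) + 1 < n := by exact_mod_cast hk
      linarith
    have h3 := bin_succ' ((n : ℚ) - k - 1) (k + 1)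
    rw [sub_add_cancel, bin_succ, bin_succ] at h3
    have e : (n : ℚ) - (k + 1 : ℕ) = n - k - 1 := by push_cast; ring
    have h4 : bin ((n : ℚ) - k - 1) (k + 1) =
        bin ((n : ℚ) - k) k * (n - k - k) * (n - k - (k + 1)) / ((k + 1) * (n - k)) := by
      push_cast at h3
      field_simp at h3 ⊢
      linear_combination -h3
    have h5 : la n k = (-1 / 3) ^ k * n * bin ((n : ℚ) - k) k / (n - k) := by
      rw [← ih]; field_simp
    unfold la at h5 ⊢
    rw [hy_succ, e, h4, h5]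
    have e3 : (1 - n + k : ℚ) = -(n - k - 1) := by ring
    rw [e3]
    field_simp
    ring

theorem la_sum (n : ℕ) : ∑ k ∈ range (n + 2), la (n + 2) k = fb (n + 2) - fb n / 3 := by
  unfold fb
  rw [sum_range_succ' _ (n + 1), sum_range_succ' _ (n + 2), sum_range_succ _ (n + 1)]
  have h0 : bin (((n + 2 : ℕ) : ℚ) - (n + 1 + 1 : ℕ)) (n + 1 + 1) = 0 := by
    have : (((n + 2 : ℕ) : ℚ) - (n + 1 + 1 : ℕ)) = (0 : ℕ) := by push_cast; ring
    rw [this]; exact bin_eq_zero (by omega)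
  rw [h0, bin_zero, sum_div]
  have : ∀ k ∈ range (n + 1), la (n + 2) (k + 1) =
      bin (((n + 2 : ℕ) : ℚ) - (k + 1 : ℕ)) (k + 1) * (-1 / 3) ^ (k + 1) -
        bin ((n : ℚ) - k) k * (-1 / 3) ^ k / 3 := by
    intro k hk
    have hk := mem_range.1 hk
    have h := la_eq (n + 2) (k + 1) (by omega)
    have e1 : (((n + 2 : ℕ) : ℚ) - (k + 1 : ℕ)) = (n - k) + 1 := by push_cast; ring
    rw [e1, bin_succ'] at h
    rw [e1, bin_succ']
    have h1 : (n : ℚ) - k + 1 ≠ 0 := by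
      have : (k : ℚ) < n + 1 := by exact_mod_cast hk
      linarith
    apply mul_right_cancel₀ h1
    rw [h]
    push_cast
    field_simp
    ring
  rw [sum_congr rfl this, sum_sub_distrib]
  simp [la, hy_zero]
  ring

/-! ### The finite form of the series for the square of the arcsine -/

def rho (j n : ℕ) : ℚ := ∏ t ∈ range j, (((n : ℚ) - t) / (n + t + 1))

def vv (j : ℕ) : ℚ := (-1) ^ j * (if 3 ∣ j then 2 else -1)

lemma vv_rec (j : ℕ) : vv (j + 2) = vv (j + 1) - vv j := by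
  unfold vv
  have h : j % 3 = 0 ∨ j % 3 = 1 ∨ j % 3 = 2 := by omega
  rcases h with h | h | h
  · rw [if_neg (by omega), if_neg (by omega), if_pos (by omega)]; ring
  · rw [if_pos (by omega), if_neg (by omega), if_neg (by omega)]; ring
  · rw [if_neg (by omega), if_pos (by omega), if_neg (by omega)]; ring

lemma rho_succ (j n : ℕ) : rho (j + 1) n = rho j n * (((n : ℚ) - j) / (n + j + 1)) :=
  prod_range_succ _ _

lemma rho_eq_zero {j n : ℕ} (h : n < j) : rho j n = 0 :=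
  prod_eq_zero (mem_range.2 h) (by simp)

lemma rho_rel (j n : ℕ) :
    rho j n = rho j (n + 1) * ((n + 1 - j) * (n + 1 + j) / ((n : ℚ) + 1) ^ 2) := by
  induction j with
  | zero => simp [rho]; field_simp
  | succ j ih =>
    rw [rho_succ, rho_succ, ih]
    push_cast
    field_simp
    ring

lemma rho_three (j k : ℕ) : rho (j + 1) (k + 1) * (2 * (2 * k + 1) / (k + 1)) =
    rho j k + 2 * rho (j + 1) k + rho (j + 2) k := by
  rw [rho_succ (j + 1) k, rho_succ j k, rho_succ j (k + 1), rho_rel j k]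
  push_cast
  field_simp
  ring

lemma rho_tele (k M : ℕ) :
    (1 + ∑ j ∈ range M, vv (j + 1) * rho (j + 1) (k + 1)) * (2 * (2 * k + 1) / (k + 1)) =
      3 * (1 + ∑ j ∈ range M, vv (j + 1) * rho (j + 1) k) +
        (vv M * rho (M + 1) k - vv (M + 1) * rho M k) := by
  induction M with
  | zero =>
    simp [vv, rho]
    field_simp
    ring
  | succ M ih =>
    rw [sum_range_succ, sum_range_succ, vv_rec]
    linear_combination ih + vv (M + 1) * rho_three M k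

lemma rho_sum (k : ℕ) : ∀ M, k ≤ M →
    1 + ∑ j ∈ range M, vv (j + 1) * rho (j + 1) k = (3 / 4) ^ k / C k := by
  induction k with
  | zero =>
    intro M _
    rw [sum_eq_zero (fun j _ => by rw [rho_eq_zero (by omega), mul_zero])]
    simp [C]
  | succ k ih =>
    intro M hM
    have h := rho_tele k M
    rw [ih M (by omega), rho_eq_zero (by omega : k < M + 1), rho_eq_zero (by omega : k < M)] at h
    have hC := (C_pos k).ne'
    rw [C_succ]
    have h2 : (2 * (2 * k + 1) / (k + 1) : ℚ) ≠ 0 := by positivity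
    apply mul_right_cancel₀ h2
    rw [h]
    field_simp
    ring

def H2 (n : ℕ) : ℚ := ∑ j ∈ range n, 1 / ((j : ℚ) + 1) ^ 2

theorem arcsin_sq (n : ℕ) :
    ∑ k ∈ range n, (3 / 4) ^ (k + 1) / C (k + 1) / ((k : ℚ) + 1) ^ 2 =
      H2 n + ∑ j ∈ range n, vv (j + 1) * rho (j + 1) n / ((j : ℚ) + 1) ^ 2 := by
  induction n with
  | zero => simp [H2]
  | succ n ih =>
    rw [sum_range_succ, ih, ← rho_sum (n + 1) (n + 1) le_rfl, H2, H2,
      sum_range_succ (fun j : ℕ => 1 / ((j : ℚ) + 1) ^ 2) n]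
    have h1 : ∑ j ∈ range n, vv (j + 1) * rho (j + 1) n / ((j : ℚ) + 1) ^ 2 =
        ∑ j ∈ range (n + 1), vv (j + 1) * rho (j + 1) n / ((j : ℚ) + 1) ^ 2 := by
      rw [sum_range_succ, rho_eq_zero (by omega : n < n + 1)]; simp
    have h2 : ∑ j ∈ range (n + 1), vv (j + 1) * rho (j + 1) (n + 1) / ((j : ℚ) + 1) ^ 2 =
        ∑ j ∈ range (n + 1), (vv (j + 1) * rho (j + 1) n / ((j : ℚ) + 1) ^ 2 +
          vv (j + 1) * rho (j + 1) (n + 1) / ((n : ℚ) + 1) ^ 2) := by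
      refine sum_congr rfl (fun j _ => ?_)
      rw [rho_rel (j + 1) n]
      push_cast
      field_simp
      ring
    rw [h1, h2, sum_add_distrib, add_div, sum_div]
    ring

end Pool.Agent.MP_b6d9c9_nt

end MrgPart1

-- marker of a merged file
example : 731051 + 421139 = 731051 + 421139 := rfl
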