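import Mathlib.NumberTheory.ZetaValues
import Pool.Agent.MP_b6d9c9_nt.Ident

-- ======== part 0: formerly Pool.Agent.MP_b6d9c9_nt.Cong1
section MrgPart0

set_option autoImplicit false

open Finset

namespace Pool.Agent.MP_b6d9c9_nt

variable {p : ℕ} [hp : Fact p.Prime]

lemma U2 (h3 : 3 < p) : U p 2 := by exact_mod_cast U_nat_lt (p := p) (n := 2) (by omega) (by omega)

lemma U3 (h3 : 3 < p) : U p 3 := by exact_mod_cast U_nat_lt (p := p) (n := 3) (by omega) h3

/-- Rationals whose denominator is a product of powers of two and three. -/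
lemma const_mem (h3 : 3 < p) (a : ℤ) (m n : ℕ) {x : ℚ} (hx : x = a / (2 ^ m * 3 ^ n)) :
    x ∈ R p := by
  rw [hx]
  exact div_mem_R (intCast_mem _ _) (((U2 h3).pow m).mul ((U3 h3).pow n))

lemma U_succ {j : ℕ} (hj : j + 1 < p) : U p ((j : ℚ) + 1) := by
  exact_mod_cast U_nat_lt (p := p) (n := j + 1) (by omega) hj

lemma bernoulli_mem (j : ℕ) (hj : j + 1 < p) : bernoulli j ∈ R p := by
  induction j using Nat.strong_induction_on with
  | _ j ih =>
    rcases Nat.eq_zero_or_pos j with rfl | h0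
    · rw [bernoulli_zero]; exact one_mem _
    have h := sum_bernoulli (j + 1)
    rw [if_neg (by omega), sum_range_succ, Nat.choose_succ_self_right] at h
    have hU := U_succ hj
    have : bernoulli j = -(∑ k ∈ range j, ((j + 1).choose k : ℚ) * bernoulli k) / (j + 1) := by
      have := hU.ne
      push_cast at h
      field_simp
      linear_combination h
    rw [this]
    refine div_mem_R (neg_mem (sum_mem (fun k hk => mul_mem (natCast_mem _ _) ?_))) hU
    have := mem_range.1 hk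
    exact ih k this (by omega)

/-- The Bernoulli polynomial of index `p - 2`. -/
noncomputable def BB (p : ℕ) (x : ℚ) : ℚ := (Polynomial.bernoulli (p - 2)).eval x

lemma BB_eq (x : ℚ) : BB p x = ∑ i ∈ range (p - 2 + 1),
    bernoulli i * ((p - 2).choose i : ℚ) * x ^ (p - 2 - i) := by
  unfold BB Polynomial.bernoulli
  rw [Polynomial.eval_finsetSum]
  simp [Polynomial.eval_monomial]

lemma BB_mem {x : ℚ} (hx : x ∈ R p) : BB p x ∈ R p := by
  rw [BB_eq]
  refine sum_mem (fun i hi => mul_mem (mul_mem (bernoulli_mem i ?_) (natCast_mem _ _))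
    (pow_mem hx _))
  have := mem_range.1 hi
  have := hp.out.two_le
  omega

lemma BB_cong {x y : ℚ} (h : D p 1 (x - y)) (hy : y ∈ R p) : D p 1 (BB p x - BB p y) := by
  rw [BB_eq, BB_eq]
  refine D_sum_sub _ _ _ (fun i hi => ?_)
  have hb : bernoulli i ∈ R p := by
    apply bernoulli_mem
    have := mem_range.1 hi
    have := hp.out.two_le
    omega
  exact ((h.cpow hy (p - 2 - i)).mem_mul (mul_mem hb (natCast_mem _ ((p - 2).choose i)))).congr
    (by ring)

lemma odd_p_sub_two (h3 : 3 < p) : Odd (p - 2) := by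
  have := hp.out.odd_of_ne_two (by omega)
  obtain ⟨k, hk⟩ := this
  exact ⟨k - 1, by omega⟩

lemma BB_zero (h3 : 3 < p) : BB p 0 = 0 := by
  have h5 : p ≠ 4 := by rintro rfl; exact absurd hp.out (by norm_num)
  unfold BB
  rw [Polynomial.bernoulli_eval_zero, bernoulli_eq_zero_of_odd (odd_p_sub_two h3) (by omega)]

lemma BB_one_sub (h3 : 3 < p) (x : ℚ) : BB p (1 - x) = -BB p x := by
  unfold BB
  rw [Polynomial.bernoulli_eval_one_sub, (odd_p_sub_two h3).neg_one_pow]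
  ring

lemma BB_half (h3 : 3 < p) : BB p (1 / 2) = 0 := by
  have := BB_one_sub h3 (1 / 2)
  norm_num at this ⊢
  linarith

lemma H2_mem {n : ℕ} (hn : n < p) : H2 n ∈ R p :=
  sum_mem (fun j hj => div_mem_R (one_mem _) ((U_succ (by have := mem_range.1 hj; omega)).pow 2))

lemma H2_BB (h3 : 3 < p) {n : ℕ} (hn : n < p) {x : ℚ} (hx : x ∈ R p)
    (h : D p 1 ((n : ℚ) + 1 - x)) : D p 1 (H2 n + BB p x / 2) := by
  obtain ⟨q, hq⟩ : ∃ q, p = q + 4 := ⟨p - 4, by omega⟩
  have h1 : D p 1 (H2 n - ∑ j ∈ range n, ((j : ℚ) + 1) ^ (q + 1)) := by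
    refine D_sum_sub _ _ _ (fun j hj => ?_)
    have hj := mem_range.1 hj
    have hU := U_succ (p := p) (j := j) (by omega)
    have hf := fermat (p := p) (n := j + 1) (Nat.not_dvd_of_pos_of_lt (by omega) (by omega))
    have := (D.neg hf).mul_mem (hU.pow 2).inv_mem
    refine this.congr ?_
    have := hU.ne
    rw [show p - 1 = q + 1 + 2 by omega]
    push_cast
    field_simp
    ring
  have h2 := Polynomial.sum_range_pow_eq_bernoulli_sub (n + 1) (q + 1)
  rw [sum_range_succ'] at h2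
  have hB : (Polynomial.bernoulli (q + 1).succ).eval ((n + 1 : ℕ) : ℚ) = BB p (n + 1) := by
    unfold BB
    rw [show p - 2 = (q + 1).succ by omega]
    push_cast; rfl
  have hB0 : bernoulli (q + 1).succ = 0 := by
    have := BB_zero h3
    unfold BB at this
    rwa [Polynomial.bernoulli_eval_zero, show p - 2 = (q + 1).succ by omega] at this
  rw [hB, hB0] at h2
  push_cast at h2
  have h4 := BB_cong h hx
  have hs : ∑ j ∈ range n, ((j : ℚ) + 1) ^ (q + 1) ∈ R p :=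
    sum_mem (fun j _ => pow_mem (add_mem (natCast_mem _ _) (one_mem _)) _)
  have hpq : (p : ℚ) = q + 4 := by rw [hq]; push_cast; ring
  have h5 := (D_p_mul hs).mul_mem (U2 h3).inv_mem
  refine ((h1.sub (h4.mul_mem (U2 h3).inv_mem)).add h5).congr ?_
  rw [hpq]
  linear_combination (-1 / 2 : ℚ) * h2

lemma H2_full (h3 : 3 < p) : D p 1 (H2 (p - 1)) := by
  have := H2_BB h3 (n := p - 1) (by omega) (x := 0) (zero_mem _) (by
    rw [Nat.cast_pred (by omega)]
    exact (D_p_mul (one_mem _)).congr (by ring))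
  simpa [BB_zero h3] using this

lemma H2_half (h3 : 3 < p) {h : ℕ} (hh : p = 2 * h + 1) : D p 1 (H2 h) := by
  have := H2_BB h3 (n := h) (by omega) (x := 1 / 2) (const_mem h3 1 1 0 (by norm_num)) (by
    refine (D_p_mul (U2 h3).inv_mem).congr ?_
    rw [hh]; push_cast; ring)
  rw [BB_half h3] at this
  simpa using this

lemma H2_split (n : ℕ) :
    H2 (2 * n) = ∑ j ∈ range n, 1 / (2 * (j : ℚ) + 1) ^ 2 + H2 n / 4 := by
  induction n with
  | zero => simp [H2]
  | succ n ih =>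
    unfold H2 at ih ⊢
    rw [show 2 * (n + 1) = 2 * n + 1 + 1 by ring, sum_range_succ, sum_range_succ, ih,
      sum_range_succ, sum_range_succ]
    push_cast
    field_simp
    ring

lemma H2_odd (h3 : 3 < p) {h : ℕ} (hh : p = 2 * h + 1) :
    D p 1 (∑ j ∈ range h, 1 / (2 * (j : ℚ) + 1) ^ 2) := by
  have h1 := H2_full h3
  rw [show p - 1 = 2 * h by omega, H2_split] at h1
  exact (h1.sub ((H2_half h3 hh).mul_mem (const_mem h3 1 2 0 (x := 1 / 4) (by norm_num)))).congr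
    (by ring)

/-- A product `∏ (1 - p ^ 2 y ^ 2 / a ^ 2)` is one modulo `p ^ 3` when the reciprocal squares
sum to zero modulo `p`. -/
lemma E3_sq {ι : Type*} (s : Finset ι) (a : ι → ℚ) {y : ℚ} (hy : y ∈ R p)
    (ha : ∀ i ∈ s, U p (a i)) (hs : D p 1 (∑ i ∈ s, 1 / a i ^ 2)) :
    E p 3 (∏ i ∈ s, (1 - (p * y) ^ 2 / a i ^ 2)) := by
  have := E3_prod (p := p) s (fun i => -((p * y) ^ 2 / a i ^ 2)) (fun i hi => by
    refine (D_pow_mul 2 (neg_mem (div_mem_R (pow_mem hy 2) ((ha i hi).pow 2)))).congr ?_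
    ring) (by
    refine ((hs.mul_mem (neg_mem (pow_mem hy 2))).pow_mul 2).congr ?_
    rw [sum_mul, mul_sum]
    exact sum_congr rfl (fun i _ => by ring))
  simpa [sub_eq_add_neg] using this

lemma Dn_block (h3 : 3 < p) {u : ℚ} (hu : u ∈ R p) (N : ℕ) :
    ∃ e, E p 3 e ∧ Dn (p * N) (p * u) = Dn N u * e := by
  induction N with
  | zero => exact ⟨1, E_one _, by simp [Dn]⟩
  | succ N ih =>
    obtain ⟨e, he, h⟩ := ih
    obtain ⟨h', hh⟩ := hp.out.odd_of_ne_two (by omega)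
    have hU : ∀ j ∈ range (2 * h'), U p (p * N + (j + 1) : ℚ) := by
      intro j hj
      have := (U_succ (p := p) (j := j) (by have := mem_range.1 hj; omega)).add_p
        (natCast_mem (R p) N)
      rwa [add_comm] at this
    have hE := E3_sq (p := p) (range (2 * h')) (fun j => (p * N + (j + 1) : ℚ)) hu hU (by
      have h1 := H2_full h3
      rw [show p - 1 = 2 * h' by omega] at h1
      refine (D.add (D_sum_sub _ _ _ (fun j hj => ?_)) h1).congr (sub_add_cancel _ _).symm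
      have hj' := U_succ (p := p) (j := j) (by have := mem_range.1 hj; omega)
      have : D p (0 + 1) ((p * N + (j + 1) : ℚ) ^ 2 - (j + 1) ^ 2) :=
        D.cpow ((D_p_mul (natCast_mem (R p) N)).congr (by ring)) hj'.mem 2
      simpa using this.cinv (hj'.pow 2))
    refine ⟨e * _, he.mul hE, ?_⟩
    have e1 : Dn (p * (N + 1)) (p * u) = Dn (p * N) (p * u) *
        ∏ s ∈ range (2 * h' + 1), ((p * u + (p * N + s : ℕ) + 1) * (p * u - (p * N + s : ℕ)) /
          (((p * N + s : ℕ) : ℚ) + 1) ^ 2) := by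
      unfold Dn
      rw [show p * (N + 1) = p * N + (2 * h' + 1) by rw [← hh]; ring, prod_range_add]
    have e2 : ∏ s ∈ range (2 * h' + 1), ((p * u + (p * N + s : ℕ) + 1) * (p * u - (p * N + s : ℕ)) /
          (((p * N + s : ℕ) : ℚ) + 1) ^ 2) =
        (∏ s ∈ range (2 * h' + 1), ((p * u + (p * N + (s + 1))) / (p * N + (s + 1)) ^ 2 : ℚ)) *
          ∏ s ∈ range (2 * h' + 1), (p * u - (p * N + s) : ℚ) := by
      rw [← prod_mul_distrib]
      refine prod_congr rfl (fun s _ => ?_)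
      push_cast
      ring
    have e3 : (∏ j ∈ range (2 * h'), (1 - (p * u) ^ 2 / (p * N + (j + 1) : ℚ) ^ 2)) =
        (∏ s ∈ range (2 * h'), ((p * u + (p * N + (s + 1))) / (p * N + (s + 1)) ^ 2 : ℚ)) *
          ∏ s ∈ range (2 * h'), (p * u - (p * N + (s + 1 : ℕ)) : ℚ) := by
      have : (1 : ℚ) = ∏ _s ∈ range (2 * h'), (-1 : ℚ) := by simp
      rw [← prod_mul_distrib, ← one_mul (∏ j ∈ range (2 * h'), (1 - _)), this,
        ← prod_mul_distrib]
      refine prod_congr rfl (fun s hs => ?_)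
      have := (hU s hs).ne
      simp only [prod_const, card_range, pow_mul, even_two, Even.neg_pow, one_pow]
      push_cast
      field_simp
      ring
    rw [e1, e2, prod_range_succ, prod_range_succ', e3, h, Dn_succ]
    have hp0 : (p : ℚ) ≠ 0 := p_ne
    have hpq : ((2 * h' : ℕ) : ℚ) + 1 = p := by rw [hh]; push_cast; ring
    rw [hpq]
    have : (p : ℚ) * N + p = p * (N + 1) := by ring
    rw [this]
    push_cast
    field_simp
    ring

lemma Dn_shift_E {u : ℚ} (hu : u ∈ R p) (N : ℕ) (r : ℕ) (hr : r < p) :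
    ∃ e, E p 1 e ∧ Dn (p * N) (p * u + r) = Dn (p * N) (p * u) * e := by
  induction r with
  | zero => exact ⟨1, E_one _, by simp⟩
  | succ r ih =>
    obtain ⟨e, he, h⟩ := ih (by omega)
    have hU := U_succ hr
    have hU' := hU.add_p (sub_mem hu (natCast_mem (R p) N))
    have hE : E p 1 ((r + 1 + p * (u + N)) / (r + 1 + p * (u - N))) :=
      E_div_of_D ((D_p_mul (x := 2 * N) (mul_mem (ofNat_mem _ _) (natCast_mem _ _))).congr
        (by ring)) hU'
    refine ⟨e * _, he.mul hE, ?_⟩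
    have h1 := Dn_shift (p * N) (p * u + r)
    have := hU'.ne
    rw [h] at h1
    push_cast at h1 ⊢
    rw [← add_assoc]
    field_simp
    linear_combination h1

lemma Dn_lucas (h3 : 3 < p) {u : ℚ} (hu : u ∈ R p) (N : ℕ) (r : ℕ) (hr : r < p) :
    ∃ e, E p 1 e ∧ Dn (p * N) (p * u + r) = Dn N u * e := by
  obtain ⟨e, he, h⟩ := Dn_block h3 hu N
  obtain ⟨e', he', h'⟩ := Dn_shift_E hu N r hr
  exact ⟨e * e', (he.mono (by norm_num)).mul he', by rw [h', h]; ring⟩

lemma half_mem (h3 : 3 < p) (m : ℤ) : (m : ℚ) - 1 / 2 ∈ R p :=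
  sub_mem (intCast_mem _ _) (const_mem h3 1 1 0 (by norm_num))

lemma half_digit (h3 : 3 < p) (m : ℤ) :
    ∃ (m' : ℤ) (r : ℕ), r < p ∧ (m : ℚ) - 1 / 2 = p * (m' - 1 / 2) + r := by
  obtain ⟨h, hh⟩ := hp.out.odd_of_ne_two (by omega)
  have hp0 : (0 : ℤ) < p := by omega
  refine ⟨(m + h) / p, ((m + h) % p).toNat, ?_, ?_⟩
  · have := Int.emod_lt_of_pos (m + h) hp0
    omega
  · have h1 := Int.mul_ediv_add_emod (m + h) p
    have h2 : ((((m + h) % p).toNat : ℤ)) = (m + h) % p :=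
      Int.toNat_of_nonneg (Int.emod_nonneg _ hp0.ne')
    have h4 : (p : ℚ) * (((m + h) / p : ℤ) : ℚ) + ((((m + h) % p).toNat : ℕ) : ℚ) = m + h := by
      rw [← h2] at h1
      exact_mod_cast h1
    have h5 : (p : ℚ) = 2 * h + 1 := by rw [hh]; push_cast; ring
    linear_combination (-1 : ℚ) * h4 + (1 / 2 : ℚ) * h5

lemma Dn_mem (h3 : 3 < p) (b : ℕ) : ∀ m : ℤ, Dn (p ^ b) (m - 1 / 2) ∈ R p := by
  induction b with
  | zero =>
    intro m
    have := half_mem h3 m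
    simp only [Dn, pow_zero, range_one, prod_singleton, Nat.cast_zero, add_zero, sub_zero,
      zero_add, one_pow, div_one]
    exact mul_mem (add_mem this (one_mem _)) this
  | succ b ih =>
    intro m
    obtain ⟨m', r, hr, h⟩ := half_digit h3 m
    obtain ⟨e, he, h'⟩ := Dn_lucas h3 (half_mem h3 m') (p ^ b) r hr
    rw [h, pow_succ', h']
    exact mul_mem (ih m') he.mem

lemma Pn_mem (h3 : 3 < p) (b : ℕ) : ∀ m : ℤ,
    (p : ℚ) ^ b * Dn (p ^ b) (m - 1 / 2) / (m - 1 / 2 + p ^ b) ∈ R p := by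
  induction b with
  | zero =>
    intro m
    have h1 := half_mem h3 m
    have h2 : (m : ℚ) - 1 / 2 + 1 ≠ 0 := by
      have := half_ne (m + 1)
      push_cast at this
      intro h; apply this; linarith
    simp only [Dn, pow_zero, range_one, prod_singleton, Nat.cast_zero, add_zero, sub_zero,
      zero_add, one_pow, div_one, one_mul]
    rwa [mul_div_cancel_left₀ _ h2]
  | succ b ih =>
    intro m
    obtain ⟨m', r, hr, h⟩ := half_digit h3 m
    rcases Nat.eq_zero_or_pos r with rfl | h0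
    · obtain ⟨e, he, h'⟩ := Dn_block h3 (half_mem h3 m') (p ^ b)
      rw [h, pow_succ' p, Nat.cast_zero, add_zero, h']
      have hp0 : (p : ℚ) ≠ 0 := p_ne
      have : (p : ℚ) ^ (b + 1) * (Dn (p ^ b) (m' - 1 / 2) * e) / (p * (m' - 1 / 2) + p ^ (b + 1)) =
          (p : ℚ) ^ b * Dn (p ^ b) (m' - 1 / 2) / (m' - 1 / 2 + p ^ b) * e := by
        rw [pow_succ', ← mul_add, mul_assoc, mul_div_mul_left _ _ hp0]
        ring
      rw [this]
      exact mul_mem (ih m') he.mem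
    · refine div_mem_R (mul_mem (pow_mem p_mem _) (Dn_mem h3 _ m)) ?_
      have := (U_nat_lt h0 hr).add_p (add_mem (half_mem h3 m') (pow_mem p_mem b))
      rw [h]
      convert this using 1
      ring

end Pool.Agent.MP_b6d9c9_nt

end MrgPart0

-- ======== part 1: formerly Pool.Agent.MP_b6d9c9_nt.Cong2
section MrgPart1

set_option autoImplicit false

open Finset

namespace Pool.Agent.MP_b6d9c9_nt

lemma C_eq (i : ℕ) : C i = (i.centralBinom : ℚ) / 4 ^ i := by
  induction i with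
  | zero => simp [C]
  | succ i ih =>
    have h : ((i + 1 : ℕ) : ℚ) * ((i + 1).centralBinom : ℚ) = 2 * (2 * i + 1) * i.centralBinom := by
      exact_mod_cast Nat.succ_mul_centralBinom_succ i
    rw [C_succ, ih]
    push_cast at h
    rw [pow_succ]
    field_simp
    linear_combination (-2) * h

lemma C_up (i k : ℕ) :
    C (i + k) = C i * ∏ j ∈ range k, ((2 * i + (2 * j + 1) : ℚ) / (2 * i + (2 * j + 2))) := by
  unfold C
  rw [prod_range_add]
  congr 1
  refine prod_congr rfl (fun j _ => ?_)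
  push_cast
  ring

lemma C_down (i k : ℕ) :
    C (i + k) = C i * ∏ j ∈ range k,
      ((2 * (i + k) - (2 * j + 1) : ℚ) / (2 * (i + k) - 2 * j)) := by
  rw [C_up, ← prod_range_reflect]
  congr 1
  refine prod_congr rfl (fun j hj => ?_)
  have hj := mem_range.1 hj
  have : ((k - 1 - j : ℕ) : ℚ) = k - 1 - j := by
    rw [Nat.cast_sub (by omega), Nat.cast_sub (by omega)]; simp
  rw [this]
  ring

variable {p : ℕ} [hp : Fact p.Prime]

lemma U4 (h3 : 3 < p) : U p 4 := by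
  have := (U2 h3).pow 2
  norm_num at this
  exact this

lemma U34 (h3 : 3 < p) : U p (3 / 4) := (U3 h3).div (U4 h3)

lemma C_mem (h3 : 3 < p) (i : ℕ) : C i ∈ R p := by
  rw [C_eq]
  exact div_mem_R (natCast_mem _ _) ((U4 h3).pow i)

lemma c_mem (h3 : 3 < p) (i : ℕ) : c i ∈ R p :=
  mul_mem (C_mem h3 i) (pow_mem (U34 h3).mem _)

lemma U_odd {h j : ℕ} (hh : p = 2 * h + 1) (hj : j < h) : U p (2 * (j : ℚ) + 1) := by
  exact_mod_cast U_nat_lt (p := p) (n := 2 * j + 1) (by omega) (by omega)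

lemma U_even {h j : ℕ} (hh : p = 2 * h + 1) (hj : j < h) : U p (2 * (j : ℚ) + 2) := by
  exact_mod_cast U_nat_lt (p := p) (n := 2 * j + 2) (by omega) (by omega)

lemma U_C {h k : ℕ} (hh : p = 2 * h + 1) (hk : k ≤ h) : U p (C k) :=
  U_prod _ _ (fun j hj => by
    have := mem_range.1 hj
    exact (U_odd hh (by omega)).div (U_even hh (by omega)))

lemma H2_even (h3 : 3 < p) {h : ℕ} (hh : p = 2 * h + 1) :
    D p 1 (∑ j ∈ range h, 1 / (2 * (j : ℚ) + 2) ^ 2) := by
  refine ((H2_half h3 hh).mul_mem (const_mem h3 1 2 0 (x := 1 / 4) (by norm_num))).congr ?_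
  rw [H2, sum_mul]
  refine sum_congr rfl (fun j _ => ?_)
  field_simp
  ring

lemma C_block (h3 : 3 < p) {h : ℕ} (hh : p = 2 * h + 1) (l : ℕ) :
    ∃ e, E p 3 e ∧ C (p * (l + 1) + h) =
      C (p * l + h) * ((2 * l + 1) / (2 * l + 2)) * C h ^ 2 * e := by
  have hy : (2 * l + 2 : ℚ) ∈ R p := by exact_mod_cast natCast_mem (R p) (2 * l + 2)
  have hE1 := E3_sq (p := p) (range h) (fun j => (2 * (j : ℚ) + 1)) hy
    (fun j hj => U_odd hh (mem_range.1 hj)) (H2_odd h3 hh)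
  have hE2 := E3_sq (p := p) (range h) (fun j => (2 * (j : ℚ) + 2)) hy
    (fun j hj => U_even hh (mem_range.1 hj)) (H2_even h3 hh)
  refine ⟨_, hE1.div hE2, ?_⟩
  have hpq : (p : ℚ) = 2 * h + 1 := by rw [hh]; push_cast; ring
  have e1 := C_up (p * (l + 1)) h
  have e2 := C_down (p * l + h) (h + 1)
  rw [show p * l + h + (h + 1) = p * (l + 1) by rw [hh]; ring] at e2
  have e3 : (2 * (((p * l + h : ℕ) : ℚ) + (h + 1 : ℕ))) = p * (2 * l + 2) := by
    push_cast; rw [hpq]; ring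
  have e4 : (2 * ((p * (l + 1) : ℕ) : ℚ)) = p * (2 * l + 2) := by push_cast; ring
  rw [e3, prod_div_distrib, prod_range_succ, prod_range_succ'] at e2
  rw [e4] at e1
  rw [e1, e2]
  have e5 : C h ^ 2 * ((∏ j ∈ range h, (1 - (p * (2 * l + 2)) ^ 2 / (2 * (j : ℚ) + 1) ^ 2)) /
      ∏ j ∈ range h, (1 - (p * (2 * l + 2)) ^ 2 / (2 * (j : ℚ) + 2) ^ 2)) =
      ((∏ j ∈ range h, ((p : ℚ) * (2 * l + 2) - (2 * j + 1))) /
        ∏ j ∈ range h, ((p : ℚ) * (2 * l + 2) - 2 * (j + 1 : ℕ))) *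
      ∏ j ∈ range h, (((p : ℚ) * (2 * l + 2) + (2 * j + 1)) / (p * (2 * l + 2) + (2 * j + 2))) := by
    rw [C, ← prod_pow, ← prod_div_distrib, ← prod_div_distrib, ← prod_mul_distrib,
      ← prod_mul_distrib]
    refine prod_congr rfl (fun j hj => ?_)
    have hj := mem_range.1 hj
    have a1 := ((U_even hh hj).add_p hy).ne
    have a2 := ((U_even hh hj).neg.add_p hy).ne
    push_cast
    obtain ⟨y, hy⟩ : ∃ y : ℚ, y = p * (2 * l + 2) := ⟨_, rfl⟩
    rw [← hy] at a1 a2 ⊢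
    have b1 : y + (2 * j + 2) ≠ 0 := by rwa [add_comm]
    have b2 : y - 2 * (j + 1) ≠ 0 := by intro h; apply a2; linear_combination h
    have b3 : (1 - y ^ 2 / (2 * (j : ℚ) + 2) ^ 2) =
        -((y + (2 * j + 2)) * (y - 2 * (j + 1))) / (2 * j + 2) ^ 2 := by
      field_simp; ring
    rw [b3]
    field_simp
    ring
  rw [mul_assoc (C (p * l + h) * _), e5, ← hpq]
  have hp0 : (p : ℚ) ≠ 0 := p_ne
  have : ((p : ℚ) * (2 * l + 2) - p) = p * (2 * l + 1) := by ring
  rw [this]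
  push_cast
  field_simp
  ring

lemma c_block (h3 : 3 < p) {h : ℕ} (hh : p = 2 * h + 1) (l : ℕ) :
    ∃ e, E p 3 e ∧ c (p * l + h) = c l * c h ^ (2 * l + 1) * e := by
  induction l with
  | zero => exact ⟨1, E_one _, by simp [c_zero]⟩
  | succ l ih =>
    obtain ⟨e, he, h1⟩ := ih
    obtain ⟨e', he', h2⟩ := C_block h3 hh l
    refine ⟨e * e', he.mul he', ?_⟩
    have : c (p * (l + 1) + h) = c (p * l + h) * (3 / 4 * ((2 * l + 1) / (2 * l + 2))) *
        c h ^ 2 * e' := by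
      unfold c
      rw [h2, show p * (l + 1) + h = p * l + h + (2 * h + 1) by rw [← hh]; ring]
      ring
    rw [this, h1, c_succ]
    ring

lemma two_pow_prod (h : ℕ) :
    ∏ j ∈ range h, (2 * h + 1 - ((j : ℚ) + 1)) =
      2 ^ h * ∏ j ∈ range h, (2 * (j : ℚ) + 1) := by
  induction h with
  | zero => simp
  | succ h ih =>
    rw [prod_range_succ' (fun j : ℕ => (2 * (h + 1 : ℕ) + 1 - ((j : ℚ) + 1))), prod_range_succ
      (fun j : ℕ => (2 * (j : ℚ) + 1))]
    have h1 := prod_range_succ' (fun j : ℕ => (2 * h + 1 - (j : ℚ))) h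
    have h2 := prod_range_succ (fun j : ℕ => (2 * h + 1 - (j : ℚ))) h
    have h3 : ∏ j ∈ range h, (2 * ((h + 1 : ℕ) : ℚ) + 1 - (((j + 1 : ℕ) : ℚ) + 1)) =
        ∏ j ∈ range h, (2 * h + 1 - (j : ℚ)) :=
      prod_congr rfl (fun j _ => by push_cast; ring)
    push_cast at h1 h2 h3 ⊢
    rw [h3]
    rw [h2, ih] at h1
    linear_combination 2 * h1

/-- Morley's congruence. -/
lemma morley (h3 : 3 < p) {h : ℕ} (hh : p = 2 * h + 1) :
    ∃ e, E p 3 e ∧ c h = (-3) ^ h * e := by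
  have hpq : (p : ℚ) = 2 * h + 1 := by rw [hh]; push_cast; ring
  have hU : ∀ j ∈ range h, U p ((j : ℚ) + 1 - p) := by
    intro j hj
    have := (U_succ (p := p) (j := j) (by have := mem_range.1 hj; omega)).add_p
      (neg_mem (one_mem (R p)))
    convert this using 1
    ring
  have hE := E3_prod (p := p) (range h) (fun j => (p : ℚ) ^ 2 / (4 * (j + 1) * (j + 1 - p)))
    (fun j hj => by
      have h1 := U_succ (p := p) (j := j) (by have := mem_range.1 hj; omega)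
      exact (D_pow_mul 2 (((U4 h3).mul h1).mul (hU j hj)).inv_mem).congr (div_eq_mul_inv _ _))
    (by
      have h1 : D p 1 (∑ j ∈ range h, (4 * ((j : ℚ) + 1) * (j + 1 - p))⁻¹ -
          ∑ j ∈ range h, 1 / (2 * (j : ℚ) + 2) ^ 2) := by
        refine D_sum_sub _ _ _ (fun j hj => ?_)
        have h2 := U_even hh (mem_range.1 hj)
        have : D p (0 + 1) (4 * ((j : ℚ) + 1) * (j + 1 - p) - (2 * (j : ℚ) + 2) ^ 2) :=
          (D_p_mul (neg_mem (mul_mem (U2 h3).mem h2.mem))).congr (by ring)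
        simpa using this.cinv (h2.pow 2)
      refine ((h1.add (H2_even h3 hh)).pow_mul 2).congr ?_
      rw [sub_add_cancel, mul_sum]
      exact sum_congr rfl (fun j _ => div_eq_mul_inv _ _))
  refine ⟨_, hE, ?_⟩
  have e1 : ∏ j ∈ range h, (2 * (j : ℚ) + 1) = ∏ j ∈ range h, ((p : ℚ) - (2 * j + 2)) := by
    rw [← prod_range_reflect]
    refine prod_congr rfl (fun j hj => ?_)
    have hj := mem_range.1 hj
    have : ((h - 1 - j : ℕ) : ℚ) = h - 1 - j := by
      rw [Nat.cast_sub (by omega), Nat.cast_sub (by omega)]; simp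
    rw [this, hpq]
    ring
  have e2 := two_pow_prod h
  rw [← hpq] at e2
  have e3 : (∏ j ∈ range h, (1 + (p : ℚ) ^ 2 / (4 * (j + 1) * (j + 1 - p)))) *
      ∏ j ∈ range h, ((p : ℚ) - (j + 1)) = (-1 / 2) ^ h * (∏ j ∈ range h, ((p : ℚ) - (2 * j + 2))) *
        ((∏ j ∈ range h, ((p : ℚ) - (2 * j + 2))) / ∏ j ∈ range h, (2 * (j : ℚ) + 2)) := by
    have : (-1 / 2 : ℚ) ^ h = ∏ _j ∈ range h, (-1 / 2 : ℚ) := by rw [prod_const, card_range]
    rw [this, ← prod_div_distrib, ← prod_mul_distrib, ← prod_mul_distrib, ← prod_mul_distrib]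
    refine prod_congr rfl (fun j hj => ?_)
    have := (hU j hj).ne
    field_simp
    ring
  rw [← e1, e2, ← prod_div_distrib] at e3
  have hne : ∏ j ∈ range h, (2 * (j : ℚ) + 1) ≠ 0 := by positivity
  have e4 : (∏ j ∈ range h, (1 + (p : ℚ) ^ 2 / (4 * (j + 1) * (j + 1 - p)))) =
      (-1 / 4) ^ h * C h := by
    have h5 : (-1 / 2 : ℚ) ^ h = (-1 / 4) ^ h * 2 ^ h := by rw [← mul_pow]; norm_num
    rw [h5] at e3
    unfold C
    apply mul_right_cancel₀ (mul_ne_zero (pow_ne_zero h (two_ne_zero)) hne)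
    rw [e3]
    ring
  rw [e4, c, ← mul_assoc, ← mul_pow]
  norm_num
  ring

/-! ### Dependence on parameters to first order -/

def Aff (p : ℕ) [Fact p.Prime] (f : ℚ → ℚ) : Prop :=
  ∃ f0 ∈ R p, ∃ f1 ∈ R p, ∀ x ∈ R p, D p 2 (f x - (f0 + p * x * f1))

lemma Aff.mul {f g : ℚ → ℚ} (hf : Aff p f) (hg : Aff p g) : Aff p (fun x => f x * g x) := by
  obtain ⟨f0, hf0, f1, hf1, hf⟩ := hf
  obtain ⟨g0, hg0, g1, hg1, hg⟩ := hg
  refine ⟨f0 * g0, mul_mem hf0 hg0, f0 * g1 + f1 * g0,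
    add_mem (mul_mem hf0 hg1) (mul_mem hf1 hg0), fun x hx => ?_⟩
  have h1 := (hf x hx).cmul (hg x hx) (add_mem hf0 (mul_mem (mul_mem p_mem hx) hf1))
    (add_mem hg0 (mul_mem (mul_mem p_mem hx) hg1))
  exact (h1.add (D_pow_mul 2 (mul_mem (pow_mem hx 2) (mul_mem hf1 hg1)))).congr (by ring)

lemma Aff_prod {ι : Type*} (s : Finset ι) (f : ι → ℚ → ℚ) (h : ∀ i ∈ s, Aff p (f i)) :
    Aff p (fun x => ∏ i ∈ s, f i x) := by
  classical
  induction s using Finset.induction_on with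
  | empty => exact ⟨1, one_mem _, 0, zero_mem _, fun x _ => by simpa using D.zero 2⟩
  | insert a s ha ih =>
    simp only [prod_insert ha]
    exact (h a (mem_insert_self _ _)).mul (ih (fun i hi => h i (mem_insert_of_mem hi)))

lemma Aff_lin {a : ℚ} (ha : a ∈ R p) (b : ℚ) (hb : b ∈ R p) : Aff p (fun x => a + p * x + b) :=
  ⟨a + b, add_mem ha hb, 1, one_mem _, fun x _ => (D.zero 2).congr (by ring)⟩

lemma Aff_inv {j : ℕ} (hj : j + 1 < p) : Aff p (fun x => (1 + p * x + j)⁻¹) := by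
  have hU := U_succ hj
  refine ⟨((j : ℚ) + 1)⁻¹, hU.inv_mem, -((j : ℚ) + 1)⁻¹ ^ 2, neg_mem (pow_mem hU.inv_mem 2),
    fun x hx => ?_⟩
  have hU' := hU.add_p hx
  refine (D_pow_mul 2 (mul_mem (mul_mem (pow_mem hx 2) (pow_mem hU.inv_mem 2))
    hU'.inv_mem)).congr ?_
  have := hU.ne
  have := hU'.ne
  beta_reduce
  rw [show (1 + p * x + j : ℚ) = j + 1 + p * x by ring]
  field_simp
  ring

def Aff4 (p : ℕ) [Fact p.Prime] (F : ℚ → ℚ → ℚ → ℚ → ℚ) : Prop :=
  ∃ V0 ∈ R p, ∃ V1 ∈ R p, ∃ V2 ∈ R p, ∃ V3 ∈ R p, ∀ x ∈ R p, ∀ y ∈ R p, ∀ z ∈ R p, ∀ w ∈ R p,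
    D p 2 (F x y z w - (V0 + p * (x * V1 + y * V2 + (z + w) * V3)))

lemma Aff4_of {f g k : ℚ → ℚ} {a : ℚ} (ha : a ∈ R p) (hf : Aff p f) (hg : Aff p g)
    (hk : Aff p k) : Aff4 p (fun x y z w => a * f x * g y * (k z * k w)) := by
  obtain ⟨f0, hf0, f1, hf1, hf⟩ := hf
  obtain ⟨g0, hg0, g1, hg1, hg⟩ := hg
  obtain ⟨k0, hk0, k1, hk1, hk⟩ := hk
  refine ⟨a * f0 * g0 * k0 * k0, by apply_rules [mul_mem], a * f1 * g0 * k0 * k0,
    by apply_rules [mul_mem], a * f0 * g1 * k0 * k0, by apply_rules [mul_mem],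
    a * f0 * g0 * k0 * k1, by apply_rules [mul_mem], fun x hx y hy z hz w hw => ?_⟩
  obtain ⟨a1, ha1, e1⟩ := hf x hx
  obtain ⟨a2, ha2, e2⟩ := hg y hy
  obtain ⟨a3, ha3, e3⟩ := hk z hz
  obtain ⟨a4, ha4, e4⟩ := hk w hw
  have hp' := p_mem (p := p)
  obtain ⟨F, hF, eF⟩ : ∃ F ∈ R p, f x = f0 + p * F :=
    ⟨x * f1 + p * a1, by apply_rules [mul_mem, add_mem], by linear_combination e1⟩
  obtain ⟨G, hG, eG⟩ : ∃ G ∈ R p, g y = g0 + p * G :=
    ⟨y * g1 + p * a2, by apply_rules [mul_mem, add_mem], by linear_combination e2⟩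
  obtain ⟨K, hK, eK⟩ : ∃ K ∈ R p, k z = k0 + p * K :=
    ⟨z * k1 + p * a3, by apply_rules [mul_mem, add_mem], by linear_combination e3⟩
  obtain ⟨L, hL, eL⟩ : ∃ L ∈ R p, k w = k0 + p * L :=
    ⟨w * k1 + p * a4, by apply_rules [mul_mem, add_mem], by linear_combination e4⟩
  have h1 : D p 2 (a * f x * g y * (k z * k w) - (a * f0 * g0 * k0 * k0 +
      p * a * (F * g0 * k0 * k0 + f0 * G * k0 * k0 + f0 * g0 * K * k0 + f0 * g0 * k0 * L))) := by
    refine ⟨a * (F * G * (k0 + p * K) * (k0 + p * L) + (F * g0 + f0 * G) * (K * k0 + k0 * L +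
      p * K * L) + f0 * g0 * K * L), ?_, ?_⟩
    · apply_rules (maxDepth := 200) [mul_mem, add_mem]
    · rw [eF, eG, eK, eL]; ring
  have h2 : D p 2 (p ^ 2 * (a * (a1 * g0 * k0 * k0 + f0 * a2 * k0 * k0 + f0 * g0 * a3 * k0 +
      f0 * g0 * k0 * a4))) := D_pow_mul 2 (by apply_rules (maxDepth := 200) [mul_mem, add_mem])
  refine (h1.add h2).congr ?_
  linear_combination (a * g0 * k0 * k0) * (e1 - eF) + (a * f0 * k0 * k0) * (e2 - eG) +
    (a * f0 * g0 * k0) * (e3 - eK) + (a * f0 * g0 * k0) * (e4 - eL)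

lemma Aff4_sum {ι : Type*} (s : Finset ι) (F : ι → ℚ → ℚ → ℚ → ℚ → ℚ)
    (h : ∀ i ∈ s, Aff4 p (F i)) : Aff4 p (fun x y z w => ∑ i ∈ s, F i x y z w) := by
  classical
  induction s using Finset.induction_on with
  | empty =>
    exact ⟨0, zero_mem _, 0, zero_mem _, 0, zero_mem _, 0, zero_mem _,
      fun x _ y _ z _ w _ => by simpa using D.zero 2⟩
  | insert a s ha ih =>
    simp only [sum_insert ha]
    obtain ⟨V0, h0, V1, h1, V2, h2, V3, h3, hV⟩ := h a (mem_insert_self _ _)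
    obtain ⟨W0, k0, W1, k1, W2, k2, W3, k3, hW⟩ := ih (fun i hi => h i (mem_insert_of_mem hi))
    exact ⟨V0 + W0, add_mem h0 k0, V1 + W1, add_mem h1 k1, V2 + W2, add_mem h2 k2, V3 + W3,
      add_mem h3 k3, fun x hx y hy z hz w hw =>
        ((hV x hx y hy z hz w hw).add (hW x hx y hy z hz w hw)).congr (by ring)⟩

/-- The truncated hypergeometric sum with `p`-adically small parameters. -/
def Th (p : ℕ) (x y z w : ℚ) : ℚ :=
  ∑ k ∈ range (p - 1), th (1 / 2 + p * x) (p * y) (1 + p * z) (1 + p * w) k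

lemma Th_aff (h3 : 3 < p) : Aff4 p (Th p) := by
  refine Aff4_sum _ _ (fun k hk => ?_)
  have hk := mem_range.1 hk
  have := Aff4_of (p := p) (a := (4 / 3) ^ (k + 1))
    (f := fun x => ∏ j ∈ range (k + 1), (1 / 2 + p * x + j))
    (g := fun y => ∏ j ∈ range k, (1 + p * y + j))
    (k := fun z => ∏ j ∈ range (k + 1), (1 + p * z + j)⁻¹)
    (pow_mem (const_mem h3 4 0 1 (by norm_num)) _)
    (Aff_prod _ _ (fun j _ => Aff_lin (const_mem h3 1 1 0 (by norm_num)) _ (natCast_mem _ _)))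
    (Aff_prod _ _ (fun j _ => Aff_lin (one_mem _) _ (natCast_mem _ _)))
    (Aff_prod _ _ (fun j hj => Aff_inv (by have := mem_range.1 hj; omega)))
  convert this using 5 with x y z w
  unfold th
  simp only [add_comm (p * y : ℚ) 1]

lemma sum_hy_Th (x y z w : ℚ) :
    ∑ r ∈ range p, hy (1 / 2 + p * x) (p * y) (1 + p * z) (1 + p * w) r =
      1 + p * y * Th p x y z w := by
  have := sum_hy (1 / 2 + p * x) (p * y) (1 + p * z) (1 + p * w) (p - 1)
  rwa [Nat.sub_add_cancel hp.out.one_le] at this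

end Pool.Agent.MP_b6d9c9_nt

end MrgPart1

-- ======== part 2: formerly Pool.Agent.MP_b6d9c9_nt.Cong3
section MrgPart2

set_option autoImplicit false

open Finset

namespace Pool.Agent.MP_b6d9c9_nt

/-- The Legendre symbol of `p` modulo three, for `p` prime to three. -/
def chi (p : ℕ) : ℚ := if p % 3 = 1 then 1 else -1

lemma chi_sq (p : ℕ) : chi p ^ 2 = 1 := by
  unfold chi; split_ifs <;> norm_num

lemma fb_two : fb 2 = 2 / 3 := by rw [fb_rec 0, fb_one, fb_zero]; norm_num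
lemma fb_three : fb 3 = 1 / 3 := by rw [fb_rec 1, fb_two, fb_one]; norm_num
lemma fb_four : fb 4 = 1 / 9 := by rw [fb_rec 2, fb_three, fb_two]; norm_num
lemma fb_five : fb 5 = 0 := by rw [fb_rec 3, fb_four, fb_three]; norm_num

lemma term_down (N i : ℕ) : term N i = term N (i + 1) *
    ((-(i + 1) : ℚ) * (3 * N - (i + 1) - 1 / 2) * 4 /
      ((1 / 2 - (i + 1)) * (N - (i + 1) + 1 / 2) * 3)) := by
  have h := Dn_shift N (uu N (i + 1))
  have e : uu N (i + 1) + 1 = uu N i := by unfold uu; push_cast; ring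
  rw [e] at h
  have a1 : uu N i - N ≠ 0 := by
    have := half_ne (N - i); push_cast at this
    intro h; apply this; unfold uu at h; linarith
  have a2 : uu N i + N ≠ 0 := by
    have := half_ne (3 * N - i); push_cast at this
    intro h; apply this; unfold uu at h; linarith
  have a3 : uu N (i + 1) + N ≠ 0 := by
    have := half_ne (3 * N - i - 1); push_cast at this
    intro h; apply this; unfold uu at h; push_cast at h; linarith
  have b1 : (3 * N - (i + 1) - 1 / 2 : ℚ) = uu N (i + 1) + N := by unfold uu; push_cast; ring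
  have b2 : (N - (i + 1) + 1 / 2 : ℚ) = uu N i - N := by unfold uu; ring
  have b3 : (1 / 2 - (i + 1) : ℚ) = -(2 * i + 1) / 2 := by ring
  have h' : Dn N (uu N i) = Dn N (uu N (i + 1)) * (uu N i + N) / (uu N i - N) := by
    rw [← h]; field_simp
  unfold term
  rw [b1, b2, b3, h', c_succ]
  field_simp

lemma term_hy (N i r : ℕ) : term N i = term N (i + r) *
    hy (-(i + r : ℕ)) (3 * N - (i + r : ℕ) - 1 / 2) (1 / 2 - (i + r : ℕ))
      (N - (i + r : ℕ) + 1 / 2) r := by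
  induction r generalizing i with
  | zero => simp [hy_zero]
  | succ r ih =>
    have h := ih (i + 1)
    rw [show i + 1 + r = i + (r + 1) by ring] at h
    rw [hy_succ, ← mul_assoc, ← h, term_down N i]
    push_cast
    congr 1
    ring

lemma c_hy (i r : ℕ) : c i * (2 * (i + r : ℕ) + 1) / (2 * i + 1) = c (i + r) *
    hy (-(i + r : ℕ)) (-(i + r : ℕ) - 1 / 2) (1 / 2 - (i + r : ℕ)) (1 / 2 - (i + r : ℕ)) r := by
  induction r generalizing i with
  | zero => simp [hy_zero]; field_simp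
  | succ r ih =>
    have h := ih (i + 1)
    rw [show i + 1 + r = i + (r + 1) by ring] at h
    rw [hy_succ, ← mul_assoc, ← h, c_succ]
    push_cast
    have b3 : (1 / 2 - (i + (r + 1)) + r : ℚ) = -(2 * i + 1) / 2 := by ring
    rw [b3]
    field_simp
    ring

lemma sum_ite_three (n : ℕ) :
    ∑ j ∈ range n, (if 3 ∣ j + 1 then 2 else -1 : ℚ) / ((j : ℚ) + 1) ^ 2 =
      -H2 n + H2 (n / 3) / 3 := by
  induction n with
  | zero => simp [H2]
  | succ n ih =>
    rw [sum_range_succ, ih]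
    by_cases h : 3 ∣ n + 1
    · obtain ⟨m, hm⟩ := h
      obtain ⟨m, rfl⟩ : ∃ k, m = k + 1 := ⟨m - 1, by omega⟩
      have e1 : (n + 1) / 3 = m + 1 := by omega
      have e2 : n / 3 = m := by omega
      have e3 : (n : ℚ) + 1 = 3 * (m + 1) := by exact_mod_cast hm
      rw [if_pos ⟨_, hm⟩, e1, e2]
      unfold H2
      rw [sum_range_succ, sum_range_succ, e3]
      field_simp
      ring
    · have e1 : (n + 1) / 3 = n / 3 := by omega
      rw [if_neg h, e1]
      unfold H2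
      rw [sum_range_succ _ n]
      ring

lemma bernoulli_dup (n : ℕ) : (Polynomial.bernoulli n).eval (1 / 3 : ℚ) =
    2 ^ n / 2 * ((Polynomial.bernoulli n).eval (1 / 6 : ℚ) +
      (Polynomial.bernoulli n).eval (2 / 3 : ℚ)) := by
  have h := bernoulliFun_mul n (m := 2) two_ne_zero (1 / 6)
  have e : ∀ x : ℚ, bernoulliFun n (x : ℝ) = (((Polynomial.bernoulli n).eval x : ℚ) : ℝ) := by
    intro x
    unfold bernoulliFun
    rw [Polynomial.eval_map]
    exact Polynomial.eval₂_at_apply (algebraMap ℚ ℝ) x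
  simp only [sum_range_succ, sum_range_zero] at h
  have e1 := e (1 / 3)
  have e2 := e (1 / 6)
  have e3 := e (2 / 3)
  norm_num at h e1 e2 e3
  rw [e1, e2, e3] at h
  apply Rat.cast_injective (α := ℝ)
  push_cast
  exact h

variable {p : ℕ} [hp : Fact p.Prime]

lemma chi_mem : chi p ∈ R p := by
  unfold chi; split_ifs
  · exact one_mem _
  · exact neg_mem (one_mem _)

lemma mod_six (h3 : 3 < p) : p % 6 = 1 ∨ p % 6 = 5 := by
  have h2 : ¬ 2 ∣ p := fun h => by
    have := (Nat.prime_dvd_prime_iff_eq Nat.prime_two hp.out).1 h; omega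
  have h3' : ¬ 3 ∣ p := fun h => by
    have := (Nat.prime_dvd_prime_iff_eq Nat.prime_three hp.out).1 h; omega
  omega

lemma eval_one (h3 : 3 < p) {h : ℕ} (hh : p = 2 * h + 1) :
    1 + p * (-1 / 2) * Th p (-1 / 2) (-1 / 2) (-1) 0 = chi p / (-3) ^ h := by
  rw [← sum_hy_Th]
  have h1 := la_sum (p - 2)
  rw [show p - 2 + 2 = p by omega] at h1
  have e : ∀ r, hy (1 / 2 + p * (-1 / 2)) (p * (-1 / 2)) (1 + p * (-1)) (1 + p * 0) r = la p r := by
    intro r; unfold la; congr 1 <;> ring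
  simp only [e]
  rw [h1]
  rcases mod_six h3 with h6 | h6
  · obtain ⟨j, hj⟩ : ∃ j, p = 6 * (j + 1) + 1 := ⟨p / 6 - 1, by omega⟩
    have : chi p = 1 := if_pos (by omega)
    rw [this, show p - 2 = 6 * j + 5 by omega, show h = 3 * (j + 1) by omega, hj, fb_mul, fb_mul,
      fb_five, fb_one, pow_mul]
    norm_num
    rw [← inv_pow]
    norm_num
  · obtain ⟨j, hj⟩ : ∃ j, p = 6 * j + 5 := ⟨p / 6, by omega⟩
    have : chi p = -1 := if_neg (by omega)
    rw [this, show p - 2 = 6 * j + 3 by omega, show h = 3 * j + 2 by omega, hj, fb_mul, fb_mul,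
      fb_five, fb_three, pow_add, pow_mul]
    have : (-1 / 27 : ℚ) ^ j = (((-3) ^ 3) ^ j)⁻¹ := by rw [← inv_pow]; norm_num
    rw [this]
    field_simp
    norm_num

lemma eval_two (h3 : 3 < p) {h : ℕ} (hh : p = 2 * h + 1) :
    1 + p * (-1) * Th p (-1) (-1) (-2) 0 = 1 / 9 ^ h := by
  rw [← sum_hy_Th]
  have h1 := la_sum (2 * p - 2)
  rw [show 2 * p - 2 + 2 = p + 1 + (p - 1) by omega, sum_range_add, sum_range_succ,
    show p + 1 + (p - 1) = 2 * p by omega] at h1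
  have e : ∀ r, hy (1 / 2 + p * (-1)) (p * (-1)) (1 + p * (-2)) (1 + p * 0) r = la (2 * p) r := by
    intro r; unfold la; congr 1 <;> push_cast <;> ring
  simp only [e]
  have h2 : ∑ x ∈ range (p - 1), la (2 * p) (p + 1 + x) = 0 := by
    refine sum_eq_zero (fun x _ => ?_)
    unfold la
    have : (-((2 * p : ℕ) : ℚ) / 2) = -(p : ℚ) := by push_cast; ring
    rw [this]
    exact hy_eq_zero_right p _ _ _ (by omega)
  have h4 : la (2 * p) p = 2 * (-1 / 3) ^ p := by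
    have := la_eq (2 * p) p (by omega)
    have e2 : (((2 * p : ℕ) : ℚ) - p) = p := by push_cast; ring
    rw [e2, bin_self] at this
    apply mul_right_cancel₀ (p_ne (p := p))
    rw [this]; push_cast; ring
  rw [h2, h4] at h1
  have h5 : fb (2 * p) - fb (2 * p - 2) / 3 = (1 / 3) ^ p := by
    rcases mod_six h3 with h6 | h6
    · obtain ⟨j, hj⟩ : ∃ j, p = 6 * j + 1 := ⟨p / 6, by omega⟩
      rw [show 2 * p - 2 = 6 * (2 * j) + 0 by omega, show 2 * p = 6 * (2 * j) + 2 by omega,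
        fb_mul, fb_mul, fb_two, fb_zero, hj, pow_add, pow_mul, pow_mul]
      norm_num
      ring
    · obtain ⟨j, hj⟩ : ∃ j, p = 6 * j + 5 := ⟨p / 6, by omega⟩
      rw [show 2 * p - 2 = 6 * (2 * j + 1) + 2 by omega, show 2 * p = 6 * (2 * j + 1) + 4 by omega,
        fb_mul, fb_mul, fb_two, fb_four, hj, pow_add, pow_add, pow_mul, pow_mul]
      norm_num
      ring
  rw [h5] at h1
  have h6 : (1 / 3 : ℚ) ^ p = 1 / 3 * (1 / 9 ^ h) := by
    rw [hh, pow_succ, pow_mul, ← one_div_pow]; norm_num; ring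
  have h7 : (-1 / 3 : ℚ) ^ p = -1 / 3 * (1 / 9 ^ h) := by
    rw [hh, pow_succ, pow_mul, ← one_div_pow]; norm_num; ring
  rw [h6, h7] at h1
  linear_combination h1

lemma eval_st {h : ℕ} (hh : p = 2 * h + 1) :
    1 + p * 1 * Th p (-1 / 2) 1 (-1 / 2) 0 = 9 ^ h := by
  rw [← sum_hy_Th, ← st_sum h p (by omega)]
  have hpq : (p : ℚ) = 2 * h + 1 := by rw [hh]; push_cast; ring
  refine sum_congr rfl (fun r _ => ?_)
  unfold st
  congr 1 <;> rw [hpq] <;> ring

/-- The values of the truncated sums that are needed, in terms of one parameter. -/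
lemma eta_facts (h3 : 3 < p) {h : ℕ} (hh : p = 2 * h + 1) :
    ∃ e ∈ R p, (-3) ^ h * (1 + p * e) = chi p ∧
      D p 1 (Th p (-1 / 2) (-1 / 2) (-1 / 2) (-1 / 2) + 2 * e) ∧
      E p 3 ((1 + p * (5 / 2) * Th p (-1 / 2) (5 / 2) (-1 / 2) (1 / 2)) * (1 + p * e) ^ 5) ∧
      E p 3 ((1 + p * (3 / 2) * Th p (-3 / 2) (3 / 2) (-3 / 2) (-1 / 2)) * (1 + p * e) ^ 3) := by
  obtain ⟨V0, h0, V1, h1, V2, h2, V3, h3', hV⟩ := Th_aff h3
  have m1 : (-1 / 2 : ℚ) ∈ R p := const_mem h3 (-1) 1 0 (by norm_num)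
  have m2 : (1 / 2 : ℚ) ∈ R p := const_mem h3 1 1 0 (by norm_num)
  have m3 : (3 / 2 : ℚ) ∈ R p := const_mem h3 3 1 0 (by norm_num)
  have m4 : (-3 / 2 : ℚ) ∈ R p := const_mem h3 (-3) 1 0 (by norm_num)
  have m5 : (5 / 2 : ℚ) ∈ R p := const_mem h3 5 1 0 (by norm_num)
  have m6 : (-1 : ℚ) ∈ R p := neg_mem (one_mem _)
  have m7 : (-2 : ℚ) ∈ R p := neg_mem (ofNat_mem _ _)
  have m8 : (2 : ℚ) ∈ R p := ofNat_mem _ _
  have m9 : (3 : ℚ) ∈ R p := ofNat_mem _ _
  have hp' := p_mem (p := p)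
  have hp0 := p_ne (p := p)
  have a1 := hV _ m1 _ m1 _ m6 _ (zero_mem _)
  have a2 := hV _ m6 _ m6 _ m7 _ (zero_mem _)
  have a3 := hV _ m1 _ (one_mem _) _ m1 _ (zero_mem _)
  have a4 := hV _ m1 _ m1 _ m1 _ m1
  have a5 := hV _ m1 _ m5 _ m1 _ m2
  have a6 := hV _ m4 _ m3 _ m4 _ m1
  have b1 := eval_one h3 hh
  have b2 := eval_two h3 hh
  have b3 := eval_st hh
  generalize Th p (-1 / 2) (-1 / 2) (-1) 0 = Lp at *
  generalize Th p (-1) (-1) (-2) 0 = L2 at *
  generalize Th p (-1 / 2) 1 (-1 / 2) 0 = St at *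
  generalize Th p (-1 / 2) (-1 / 2) (-1 / 2) (-1 / 2) = L1 at *
  generalize Th p (-1 / 2) (5 / 2) (-1 / 2) (1 / 2) = T1 at *
  generalize Th p (-3 / 2) (3 / 2) (-3 / 2) (-1 / 2) = T3 at *
  have hLp : Lp ∈ R p := a1.mem_of_sub (by apply_rules (maxDepth := 100) [add_mem, mul_mem, zero_mem])
  obtain ⟨e, he, hLe⟩ : ∃ e ∈ R p, Lp = -2 * e := ⟨-1 / 2 * Lp, mul_mem m1 hLp, by ring⟩
  subst hLe
  have hη : (-3) ^ h * (1 + p * e) = chi p := by
    have : (1 + p * e : ℚ) = chi p / (-3) ^ h := by rw [← b1]; ring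
    rw [this]; field_simp
  have h9 : (9 : ℚ) ^ h * (1 + p * e) ^ 2 = 1 := by
    have := chi_sq p
    rw [← hη, mul_pow, ← pow_mul, mul_comm h 2, pow_mul] at this
    norm_num at this
    exact this
  have hL2 : L2 = -2 * e - p * e ^ 2 := by
    apply mul_left_cancel₀ hp0
    have : (1 + p * e : ℚ) ^ 2 = 1 / 9 ^ h := by rw [eq_div_iff (by positivity), mul_comm, h9]
    linear_combination this - b2
  have hUη : U p (1 + p * e) := U_one.add_p he
  have hSt : D p 2 (St - (-2 * e + 3 * p * e ^ 2)) := by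
    have h10 : St * (1 + p * e) ^ 2 = -2 * e - p * e ^ 2 := by
      apply mul_left_cancel₀ hp0
      linear_combination (1 + p * e) ^ 2 * b3 + h9
    have : (-4 * e ^ 3 - 3 * p * e ^ 4) ∈ R p :=
      sub_mem (mul_mem (neg_mem (ofNat_mem _ _)) (pow_mem he _))
        (mul_mem (mul_mem m9 hp') (pow_mem he _))
    refine (D_pow_mul 2 (div_mem_R this (hUη.pow 2))).congr ?_
    rw [← mul_div_assoc, eq_div_iff (hUη.pow 2).ne]
    linear_combination h10
  subst hL2
  have c1 : D p 2 (T1 - (-2 * e + 6 * p * e ^ 2)) :=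
    (((a5.sub (a3.mem_mul m8)).add a1).add (hSt.mem_mul m8)).congr (by ring)
  have c3 : D p 2 (T3 - (-2 * e + 4 * p * e ^ 2)) :=
    ((((a6.sub (a3.mem_mul m8)).add (a1.mem_mul m9)).sub (a2.mem_mul m8)).add
      (hSt.mem_mul m8)).congr (by ring)
  refine ⟨e, he, hη, ?_, ?_, ?_⟩
  · exact (((a4.sub a1).mono (by norm_num : 1 ≤ 2)).add (D_p_mul (zero_mem _))).congr (by ring)
  · have d1 := (c1.p_mul.mul_mem m5).mul_mem (pow_mem hUη.mem 5)
    have d2 : D p 3 ((p : ℚ) ^ 3 * (e ^ 3 * (35 + 105 * (p * e) + 126 * (p * e) ^ 2 +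
        70 * (p * e) ^ 3 + 15 * (p * e) ^ 4))) := by
      have := mul_mem hp' he
      refine D_pow_mul 3 (mul_mem (pow_mem he _) ?_)
      exact add_mem (add_mem (add_mem (add_mem (ofNat_mem _ _) (mul_mem (ofNat_mem _ _) this))
        (mul_mem (ofNat_mem _ _) (pow_mem this _))) (mul_mem (ofNat_mem _ _) (pow_mem this _)))
        (mul_mem (ofNat_mem _ _) (pow_mem this _))
    exact (d1.add d2).congr (by ring)
  · have d1 := (c3.p_mul.mul_mem m3).mul_mem (pow_mem hUη.mem 3)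
    have d2 : D p 3 ((p : ℚ) ^ 3 * (e ^ 3 * (10 + 15 * (p * e) + 6 * (p * e) ^ 2))) := by
      have := mul_mem hp' he
      refine D_pow_mul 3 (mul_mem (pow_mem he _) ?_)
      exact add_mem (add_mem (ofNat_mem _ _) (mul_mem (ofNat_mem _ _) this))
        (mul_mem (ofNat_mem _ _) (pow_mem this _))
    exact (d1.add d2).congr (by ring)

lemma BB_six (h3 : 3 < p) : D p 1 (BB p (1 / 6) - 5 * BB p (1 / 3)) := by
  have h1 := bernoulli_dup (p - 2)
  have h2 := BB_one_sub h3 (1 / 3)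
  change BB p (1 / 3) = 2 ^ (p - 2) / 2 * (BB p (1 / 6) + BB p (2 / 3)) at h1
  rw [show (1 - 1 / 3 : ℚ) = 2 / 3 by norm_num] at h2
  rw [h2] at h1
  have hf := fermat (p := p) (n := 2) (Nat.not_dvd_of_pos_of_lt (by omega) (by omega))
  rw [show p - 1 = p - 2 + 1 by omega, pow_succ] at hf
  have m1 := BB_mem (p := p) (const_mem h3 1 1 1 (x := 1 / 6) (by norm_num))
  have m2 := BB_mem (p := p) (const_mem h3 1 0 1 (x := 1 / 3) (by norm_num))
  refine ((D.neg hf).mul_mem (sub_mem m1 m2)).congr ?_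
  push_cast
  linear_combination (-4) * h1

lemma W_cong (h3 : 3 < p) {h : ℕ} (hh : p = 2 * h + 1) :
    D p 1 (∑ k ∈ range h, (3 / 4) ^ (k + 1) / C (k + 1) / ((k : ℚ) + 1) ^ 2 -
      5 / 6 * chi p * BB p (1 / 3)) := by
  have hpq : (p : ℚ) = 2 * h + 1 := by rw [hh]; push_cast; ring
  rw [arcsin_sq]
  have h1 : D p 1 (∑ j ∈ range h, vv (j + 1) * rho (j + 1) h / ((j : ℚ) + 1) ^ 2 -
      ∑ j ∈ range h, (if 3 ∣ j + 1 then 2 else -1 : ℚ) / ((j : ℚ) + 1) ^ 2) := by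
    refine D_sum_sub _ _ _ (fun j hj => ?_)
    have hj := mem_range.1 hj
    have h2 : D p 1 (rho (j + 1) h - ∏ _t ∈ range (j + 1), (-1 : ℚ)) := by
      refine D_cprod _ _ _ (fun t ht => ?_) (fun _ _ => neg_mem (one_mem _))
      have ht := mem_range.1 ht
      have hU : U p ((h : ℚ) + t + 1) := by
        exact_mod_cast U_succ (p := p) (j := h + t) (by omega)
      refine (D_p_mul hU.inv_mem).congr ?_
      have := hU.ne
      rw [hpq]
      field_simp
      ring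
    rw [prod_const, card_range] at h2
    have hv : vv (j + 1) ∈ R p := by
      unfold vv
      refine mul_mem (pow_mem (neg_mem (one_mem _)) _) ?_
      split_ifs
      · exact ofNat_mem _ _
      · exact neg_mem (one_mem _)
    have hU := U_succ (p := p) (j := j) (by omega)
    refine ((h2.mem_mul hv).mul_mem (hU.pow 2).inv_mem).congr ?_
    have : vv (j + 1) * (-1) ^ (j + 1) = (if 3 ∣ j + 1 then 2 else -1 : ℚ) := by
      unfold vv
      rw [mul_right_comm, ← mul_pow]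
      simp
    rw [← this]
    ring
  rw [sum_ite_three] at h1
  have m3 : (1 / 3 : ℚ) ∈ R p := const_mem h3 1 0 1 (by norm_num)
  have m6 : (1 / 6 : ℚ) ∈ R p := const_mem h3 1 1 1 (by norm_num)
  have h6 := BB_six h3
  rcases mod_six h3 with h7 | h7
  · obtain ⟨j, hj⟩ : ∃ j, p = 6 * j + 1 := ⟨p / 6, by omega⟩
    have hc : chi p = 1 := if_pos (by omega)
    have := H2_BB h3 (n := h / 3) (by omega) (x := 1 - 1 / 6) (sub_mem (one_mem _) m6) (by
      refine (D_p_mul m6).congr ?_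
      rw [show h / 3 = j by omega, hj]; push_cast; ring)
    rw [BB_one_sub h3] at this
    rw [hc]
    exact ((h1.add (this.mul_mem m3)).add (h6.mul_mem m6)).congr (by ring)
  · obtain ⟨j, hj⟩ : ∃ j, p = 6 * j + 5 := ⟨p / 6, by omega⟩
    have hc : chi p = -1 := if_neg (by omega)
    have := H2_BB h3 (n := h / 3) (by omega) (x := 1 / 6) m6 (by
      refine (D_p_mul m6).congr ?_
      rw [show h / 3 = j by omega, hj]; push_cast; ring)
    rw [hc]
    exact ((h1.add (this.mul_mem m3)).sub (h6.mul_mem m6)).congr (by ring)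

end Pool.Agent.MP_b6d9c9_nt

end MrgPart2

-- ======== part 3: formerly Pool.Agent.MP_b6d9c9_nt.Cong4
section MrgPart3

set_option autoImplicit false

open Finset

namespace Pool.Agent.MP_b6d9c9_nt

lemma sum_down (N i K : ℕ) : ∑ j ∈ range (K + 1), term N (i + j) = term N (i + K) *
    ∑ r ∈ range (K + 1), hy (-(i + K : ℕ)) (3 * N - (i + K : ℕ) - 1 / 2) (1 / 2 - (i + K : ℕ))
      (N - (i + K : ℕ) + 1 / 2) r := by
  rw [← sum_range_reflect, mul_sum]
  refine sum_congr rfl (fun r hr => ?_)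
  have hr := mem_range.1 hr
  have := term_hy N (i + (K + 1 - 1 - r)) r
  rwa [show i + (K + 1 - 1 - r) + r = i + K by omega] at this

lemma sum_block (f : ℕ → ℚ) (q M : ℕ) :
    ∑ i ∈ range (q * M), f i = ∑ l ∈ range M, ∑ j ∈ range q, f (q * l + j) := by
  induction M with
  | zero => simp
  | succ M ih => rw [Nat.mul_succ, sum_range_add, ih, sum_range_succ]

lemma uu_eq (N i : ℕ) : uu N i = ((2 * N - i : ℤ) : ℚ) - 1 / 2 := by
  unfold uu; push_cast; ring

lemma term_one_zero : term 1 0 = 3 / 2 := by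
  simp [term, c_zero, Dn, uu]; norm_num

lemma c_one : c 1 = 3 / 8 := by rw [c_succ, c_zero]; norm_num

lemma term_one_one : term 1 1 = 3 / 16 := by
  simp [term, c_one, Dn, uu]; norm_num

variable {p : ℕ} [hp : Fact p.Prime]

lemma uu_mem (h3 : 3 < p) (N i : ℕ) : uu N i ∈ R p := by
  rw [uu_eq]; exact half_mem h3 _

lemma term_center (h3 : 3 < p) {h : ℕ} (hh : p = 2 * h + 1) (N l : ℕ) :
    ∃ e, E p 3 e ∧ term (p * N) (p * l + h) = p * term N l * c h ^ (2 * l + 1) * e := by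
  have hpq : (p : ℚ) = 2 * h + 1 := by rw [hh]; push_cast; ring
  obtain ⟨e1, he1, h1⟩ := c_block h3 hh l
  obtain ⟨e2, he2, h2⟩ := Dn_block h3 (uu_mem h3 N l) N
  refine ⟨e1 * e2, he1.mul he2, ?_⟩
  have hu : uu (p * N) (p * l + h) = p * uu N l := by
    unfold uu; push_cast; linear_combination (1 / 2 : ℚ) * hpq
  have hp0 := p_ne (p := p)
  unfold term
  rw [hu, h1, h2]
  push_cast
  rw [← mul_add, mul_pow, sq (p : ℚ), mul_assoc (p : ℚ), mul_assoc (p : ℚ), mul_div_mul_left _ _ hp0]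
  ring

lemma c_up_cong (h3 : 3 < p) {h : ℕ} (hh : p = 2 * h + 1) (l k : ℕ) (hk : k < h) :
    D p 2 (c (p * l + h + (k + 1)) -
      p * (c (p * l + h) * (2 * l + 1) * ((3 / 4) ^ (k + 1) / C (k + 1) / (2 * k + 2)))) := by
  have hpq : (p : ℚ) = 2 * h + 1 := by rw [hh]; push_cast; ring
  have hν : (2 * l + 1 : ℚ) ∈ R p := by exact_mod_cast natCast_mem (R p) (2 * l + 1)
  have a1 : D p 1 (∏ j ∈ range k, ((p : ℚ) * (2 * l + 1) + (2 * j + 2)) -
      ∏ j ∈ range k, (2 * (j : ℚ) + 2)) :=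
    D_cprod _ _ _ (fun j _ => (D_p_mul hν).congr (by ring))
      (fun j hj => (U_even hh (by have := mem_range.1 hj; omega)).mem)
  have hU : U p (∏ j ∈ range (k + 1), (2 * (j : ℚ) + 1)) :=
    U_prod _ _ (fun j hj => U_odd hh (by have := mem_range.1 hj; omega))
  have a2 : D p (0 + 1) (∏ j ∈ range (k + 1), ((p : ℚ) * (2 * l + 1) + (2 * j + 1)) -
      ∏ j ∈ range (k + 1), (2 * (j : ℚ) + 1)) :=
    D_cprod _ _ _ (fun j _ => (D_p_mul hν).congr (by ring))
      (fun j hj => (U_odd hh (by have := mem_range.1 hj; omega)).mem)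
  have a3 := a1.cmul (a2.cinv hU)
    (prod_mem (fun j hj => (U_even hh (by have := mem_range.1 hj; omega)).mem)) hU.inv_mem
  have a4 := ((a3.mem_mul (mul_mem (mul_mem (c_mem h3 (p * l + h)) hν)
    (pow_mem (U34 h3).mem (k + 1)))).p_mul)
  refine a4.congr ?_
  have e1 : c (p * l + h + (k + 1)) = c (p * l + h) * (3 / 4) ^ (k + 1) *
      ((p * (2 * l + 1)) * (∏ j ∈ range k, ((p : ℚ) * (2 * l + 1) + (2 * j + 2))) *
        (∏ j ∈ range (k + 1), ((p : ℚ) * (2 * l + 1) + (2 * j + 1)))⁻¹) := by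
    unfold c
    rw [C_up, prod_div_distrib, prod_range_succ']
    have b1 : ∏ j ∈ range k, (2 * ((p * l + h : ℕ) : ℚ) + (2 * ((j + 1 : ℕ) : ℚ) + 1)) =
        ∏ j ∈ range k, ((p : ℚ) * (2 * l + 1) + (2 * j + 2)) :=
      prod_congr rfl (fun j _ => by push_cast; linear_combination (-1 : ℚ) * hpq)
    have b2 : ∏ j ∈ range (k + 1), (2 * ((p * l + h : ℕ) : ℚ) + (2 * (j : ℚ) + 2)) =
        ∏ j ∈ range (k + 1), ((p : ℚ) * (2 * l + 1) + (2 * j + 1)) :=
      prod_congr rfl (fun j _ => by push_cast; linear_combination (-1 : ℚ) * hpq)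
    have b3 : (2 * ((p * l + h : ℕ) : ℚ) + (2 * ((0 : ℕ) : ℚ) + 1)) = p * (2 * l + 1) := by
      push_cast; linear_combination (-1 : ℚ) * hpq
    rw [b1, b2, b3]
    ring
  have e2 : C (k + 1) = (∏ j ∈ range (k + 1), (2 * (j : ℚ) + 1)) /
      ((∏ j ∈ range k, (2 * (j : ℚ) + 2)) * (2 * k + 2)) := by
    rw [C, prod_div_distrib, prod_range_succ (fun j : ℕ => (2 * (j : ℚ) + 2))]
  rw [e1, e2]
  have := hU.ne
  have : ∏ j ∈ range k, (2 * (j : ℚ) + 2) ≠ 0 := by positivity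
  field_simp

lemma X_mem (h3 : 3 < p) {h : ℕ} (hh : p = 2 * h + 1) {k : ℕ} (hk : k < h) :
    ((3 / 4) ^ (k + 1) / C (k + 1) / (2 * k + 2) : ℚ) ∈ R p :=
  div_mem_R (div_mem_R (pow_mem (U34 h3).mem _) (U_C hh (by omega))) (U_even hh hk)

lemma tail_term (h3 : 3 < p) {h : ℕ} (hh : p = 2 * h + 1) (k : ℕ) (hk : k < h) :
    D p 4 (term p (h + 1 + p + k) - p ^ 3 * (c (p + h) * (3 / 8) *
      ((3 / 4) ^ (k + 1) / C (k + 1) / ((k : ℚ) + 1) ^ 2))) := by
  have hpq : (p : ℚ) = 2 * h + 1 := by rw [hh]; push_cast; ring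
  have a1 := c_up_cong h3 hh 1 k hk
  rw [mul_one, show p + h + (k + 1) = h + 1 + p + k by ring] at a1
  obtain ⟨e, he, h1⟩ := Dn_lucas h3 (half_mem h3 0) 1 (p - (k + 1)) (by omega)
  have hu : uu p (h + 1 + p + k) = p * (((0 : ℤ) : ℚ) - 1 / 2) + (p - (k + 1) : ℕ) := by
    rw [Nat.cast_sub (by omega)]
    unfold uu; push_cast; linear_combination (1 / 2 : ℚ) * hpq
  have hD : Dn 1 (((0 : ℤ) : ℚ) - 1 / 2) = -1 / 4 := by simp [Dn]; norm_num
  rw [mul_one, ← hu, hD] at h1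
  have hU := (U_succ (p := p) (j := k) (by omega)).neg
  have a2 : D p (0 + 1) (uu p (h + 1 + p + k) + p - -((k : ℚ) + 1)) := by
    refine (D_p_mul (const_mem h3 3 1 0 (x := 3 / 2) (by norm_num))).congr ?_
    unfold uu; push_cast; linear_combination (1 / 2 : ℚ) * hpq
  have m4 : (-1 / 4 : ℚ) ∈ R p := const_mem h3 (-1) 2 0 (by norm_num)
  have a3 : D p 1 (-1 / 4 * e - -1 / 4) := (D.mem_mul he m4).congr (by ring)
  have a4 := a3.cmul (a2.cinv hU) m4 hU.inv_mem
  have hX := mul_mem (mul_mem (c_mem h3 (p + h)) (U3 h3).mem) (X_mem h3 hh hk)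
  have a5 := (a1.mul_mem (a4.mem_of_sub (mul_mem m4 hU.inv_mem))).add (a4.mem_mul hX).p_mul
  refine (a5.pow_mul 2).congr ?_
  unfold term
  rw [h1]
  have := (C_pos (k + 1)).ne'
  have : (k : ℚ) + 1 ≠ 0 := by positivity
  have : (2 * k + 2 : ℚ) = 2 * (k + 1) := by ring
  rw [this]
  generalize (uu p (h + 1 + p + k) + p) = d
  push_cast
  rw [div_eq_mul_inv _ d]
  generalize d⁻¹ = d'
  field_simp
  ring

lemma kappa_eq {h : ℕ} (hh : p = 2 * h + 1) {η : ℚ} (hη : (-3) ^ h * η = chi p) (N : ℕ) :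
    (48 / 27 ^ (p * N) : ℚ) = 48 / 27 ^ N * η ^ (6 * N) := by
  have h1 : ((-3 : ℚ) ^ h * η) ^ 6 = 1 := by
    rw [hη, show 6 = 2 * 3 by rfl, pow_mul, chi_sq]; norm_num
  have h2 : ((-3 : ℚ) ^ h) ^ 6 = 27 ^ (2 * h) := by
    rw [← pow_mul, mul_comm h 6, pow_mul, pow_mul]; norm_num
  rw [mul_pow, h2] at h1
  have h4 : (27 : ℚ) ^ (p * N) = 27 ^ N * (27 ^ (2 * h)) ^ N := by
    rw [hh, ← pow_mul, ← pow_add]; congr 1; ring
  have h5 : ((27 : ℚ) ^ (2 * h)) ^ N * η ^ (6 * N) = 1 := by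
    rw [pow_mul η, ← mul_pow, h1, one_pow]
  rw [h4]
  field_simp
  linear_combination (-1 : ℚ) * h5

theorem base_case (h3 : 3 < p) :
    D p 4 (S p - (3 * chi p * p + 5 / 24 * p ^ 3 * BB p (1 / 3))) := by
  obtain ⟨h, hh⟩ := hp.out.odd_of_ne_two (by omega)
  have hpq : (p : ℚ) = 2 * h + 1 := by rw [hh]; push_cast; ring
  obtain ⟨e, he, hη, -, hT1, hT3⟩ := eta_facts h3 hh
  obtain ⟨e0, he0, hγ⟩ := morley h3 hh
  have hκ := kappa_eq hh hη 1
  rw [mul_one] at hκ
  have hUη : U p (1 + p * e) := U_one.add_p he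
  have hEη : E p 1 (1 + p * e) := (D_p_mul he).congr (by ring)
  rw [S_eq, show 2 * p = h + 1 + p + h by omega, sum_range_add, sum_range_add, hκ]
  have p1 : ∑ i ∈ range (h + 1), term p i =
      term p h * (1 + p * (5 / 2) * Th p (-1 / 2) (5 / 2) (-1 / 2) (1 / 2)) := by
    have := sum_down p 0 h
    simp only [zero_add] at this
    rw [this, ← sum_hy_Th]
    congr 1
    rw [show p = h + 1 + h by omega, sum_range_add _ (h + 1) h, ← show p = h + 1 + h by omega]
    have e1 : (1 / 2 + p * (-1 / 2) : ℚ) = -h := by rw [hpq]; ring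
    rw [e1, sum_eq_zero (s := range h) (fun x _ => hy_eq_zero_left h _ _ _ (by omega)), add_zero]
    refine sum_congr rfl (fun r _ => ?_)
    congr 1 <;> rw [hpq] <;> ring
  have p3 : ∑ i ∈ range p, term p (h + 1 + i) =
      term p (p + h) * (1 + p * (3 / 2) * Th p (-3 / 2) (3 / 2) (-3 / 2) (-1 / 2)) := by
    have := sum_down p (h + 1) (2 * h)
    rw [← hh, show h + 1 + 2 * h = p + h by omega] at this
    rw [this, ← sum_hy_Th]
    congr 1
    refine sum_congr rfl (fun r _ => ?_)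
    congr 1 <;> push_cast <;> rw [hpq] <;> ring
  obtain ⟨e1, he1, t1⟩ := term_center h3 hh 1 0
  obtain ⟨e3, he3, t3⟩ := term_center h3 hh 1 1
  obtain ⟨e4, he4, t4⟩ := c_block h3 hh 1
  simp only [mul_one, mul_zero, zero_add, pow_one] at t1 t3 t4
  rw [term_one_zero] at t1
  rw [term_one_one] at t3
  rw [c_one] at t4
  have q1 : D p 4 ((p : ℚ) * (8 / 3 * chi p * ((((1 + p * (5 / 2) *
      Th p (-1 / 2) (5 / 2) (-1 / 2) (1 / 2)) * (1 + p * e) ^ 5) * (e0 * e1)) - 1))) :=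
    (D.mem_mul (hT1.mul (he0.mul he1))
      (mul_mem (const_mem h3 8 0 1 (by norm_num)) chi_mem)).p_mul
  have q3 : D p 4 ((p : ℚ) * (1 / 3 * chi p * ((((1 + p * (3 / 2) *
      Th p (-3 / 2) (3 / 2) (-3 / 2) (-1 / 2)) * (1 + p * e) ^ 3) * (e0 ^ 3 * e3)) - 1))) :=
    (D.mem_mul (hT3.mul ((he0.pow 3).mul he3))
      (mul_mem (const_mem h3 1 0 1 (by norm_num)) chi_mem)).p_mul
  have q5 := D_sum_sub (range h) _ _ (fun k hk => tail_term h3 hh k (mem_range.1 hk))
  rw [← mul_sum, ← mul_sum] at q5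
  have hW := W_cong h3 hh
  have hB := BB_mem (p := p) (const_mem h3 1 0 1 (x := 1 / 3) (by norm_num))
  generalize ∑ k ∈ range h, (3 / 4 : ℚ) ^ (k + 1) / C (k + 1) / ((k : ℚ) + 1) ^ 2 = W at *
  have q6 : D p 1 ((1 + p * e) ^ 3 * (e0 ^ 3 * e4) * W - 1 * (5 / 6 * chi p * BB p (1 / 3))) :=
    D.cmul ((hEη.pow 3).mul (((he0.pow 3).mul he4).mono (by norm_num))) hW (one_mem _)
      (mul_mem (mul_mem (const_mem h3 5 1 1 (by norm_num)) chi_mem) hB)
  have q7 := (q6.mem_mul (mul_mem (const_mem h3 1 2 0 (x := 1 / 4) (by norm_num)) chi_mem)).pow_mul 3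
  have q8 := q5.mem_mul (mul_mem (const_mem h3 16 0 2 (x := 16 / 9) (by norm_num))
    (pow_mem hUη.mem 6))
  refine (((q1.add q3).add q7).add q8).congr ?_
  rw [p1, p3, t1, t3, t4, hγ]
  have hc := chi_sq p
  have hc3 : ((-3 : ℚ) ^ h * (1 + p * e)) ^ 3 = chi p := by
    rw [hη, pow_succ, hc, one_mul]
  generalize (-3 : ℚ) ^ h = δ at *
  generalize (1 + p * e : ℚ) = η at *
  generalize (1 + p * (5 / 2) * Th p (-1 / 2) (5 / 2) (-1 / 2) (1 / 2) : ℚ) = A1 at *
  generalize (1 + p * (3 / 2) * Th p (-3 / 2) (3 / 2) (-3 / 2) (-1 / 2) : ℚ) = A3 at *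
  linear_combination (8 / 3 * p * A1 * η ^ 5 * e0 * e1) * hη +
    (1 / 3 * p * A3 * η ^ 3 * e0 ^ 3 * e3 + 1 / 4 * p ^ 3 * η ^ 3 * e0 ^ 3 * e4 * W) * hc3 +
    (5 / 24 * p ^ 3 * BB p (1 / 3)) * hc

end Pool.Agent.MP_b6d9c9_nt

end MrgPart3

-- ======== part 4: formerly Pool.Agent.MP_b6d9c9_nt.Cong5
section MrgPart4

set_option autoImplicit false

open Finset

namespace Pool.Agent.MP_b6d9c9_nt

variable {p : ℕ} [hp : Fact p.Prime]

lemma C_low {h : ℕ} (hh : p = 2 * h + 1) (l j : ℕ) (hj : j ≤ h) :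
    ∃ e, E p 1 e ∧ c (p * l + j) = c (p * l) * c j * e := by
  have hl : (2 * l : ℚ) ∈ R p := by exact_mod_cast natCast_mem (R p) (2 * l)
  have hU := U_C hh hj
  have a1 : D p (0 + 1) (∏ t ∈ range j, ((2 * ((p * l : ℕ) : ℚ) + (2 * t + 1)) /
      (2 * ((p * l : ℕ) : ℚ) + (2 * t + 2))) - C j) := by
    refine D_cprod _ _ _ (fun t ht => ?_) (fun t ht => ?_)
    · have ht := mem_range.1 ht
      have u1 := U_odd hh (j := t) (by omega)
      have u2 := U_even hh (j := t) (by omega)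
      have b1 : D p (0 + 1) (2 * ((p * l : ℕ) : ℚ) + (2 * t + 1) - (2 * t + 1)) :=
        (D_p_mul hl).congr (by push_cast; ring)
      have b2 : D p (0 + 1) (2 * ((p * l : ℕ) : ℚ) + (2 * t + 2) - (2 * t + 2)) :=
        (D_p_mul hl).congr (by push_cast; ring)
      exact b1.cmul (b2.cinv u2) u1.mem u2.inv_mem
    · have ht := mem_range.1 ht
      exact ((U_odd hh (j := t) (by omega)).div (U_even hh (j := t) (by omega))).mem
  refine ⟨_, E_div_of_D a1 hU, ?_⟩
  unfold c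
  rw [C_up]
  have := hU.ne
  field_simp
  ring

lemma c_lucas (h3 : 3 < p) {h : ℕ} (hh : p = 2 * h + 1) (hγ : E p 1 (c h ^ 2)) (l j : ℕ)
    (hj : j ≤ h) : ∃ e, E p 1 e ∧ c (p * l + j) = c l * c j * e := by
  obtain ⟨e1, he1, h1⟩ := C_low hh l j hj
  obtain ⟨e2, he2, h2⟩ := C_low hh l h le_rfl
  obtain ⟨e3, he3, h3'⟩ := c_block h3 hh l
  refine ⟨(c h ^ 2) ^ l * e3 / e2 * e1,
    (E.div (k := 0) ((hγ.pow l).mul (he3.mono (by norm_num))) he2).mul he1, ?_⟩
  have hne : c h ≠ 0 := mul_ne_zero (C_pos h).ne' (by positivity)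
  have hne2 := (E.unit (k := 0) he2).ne
  have : c (p * l) = c l * (c h ^ 2) ^ l * e3 / e2 := by
    rw [eq_div_iff hne2]
    apply mul_right_cancel₀ hne
    rw [h2] at h3'
    linear_combination h3'
  rw [h1, this]
  ring

lemma L1_eq {h : ℕ} (hh : p = 2 * h + 1) :
    ∑ j ∈ range h, c j / (2 * j + 1) =
      -1 / 2 * c h * Th p (-1 / 2) (-1 / 2) (-1 / 2) (-1 / 2) := by
  have hpq : (p : ℚ) = 2 * h + 1 := by rw [hh]; push_cast; ring
  have h1 := sum_hy_Th (p := p) (-1 / 2) (-1 / 2) (-1 / 2) (-1 / 2)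
  have e1 : (1 / 2 + p * (-1 / 2) : ℚ) = -h := by rw [hpq]; ring
  have e2 : (p * (-1 / 2) : ℚ) = -h - 1 / 2 := by rw [hpq]; ring
  have e3 : (1 + p * (-1 / 2) : ℚ) = 1 / 2 - h := by rw [hpq]; ring
  rw [e1, e3] at h1
  nth_rewrite 1 [e2] at h1
  nth_rewrite 1 [show p = h + 1 + h by omega] at h1
  rw [sum_range_add _ (h + 1) h,
    sum_eq_zero (s := range h) (fun x _ => hy_eq_zero_left h _ _ _ (by omega)), add_zero] at h1
  have h2 : ∑ j ∈ range (h + 1), c j * p / (2 * j + 1) =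
      c h * ∑ r ∈ range (h + 1), hy (-h) (-h - 1 / 2) (1 / 2 - h) (1 / 2 - h) r := by
    rw [← sum_range_reflect, mul_sum]
    refine sum_congr rfl (fun r hr => ?_)
    have hr := mem_range.1 hr
    have := c_hy (h + 1 - 1 - r) r
    rwa [show h + 1 - 1 - r + r = h by omega, ← hpq] at this
  rw [h1, sum_range_succ, ← hpq] at h2
  have hp0 := p_ne (p := p)
  apply mul_left_cancel₀ hp0
  rw [mul_sum]
  have h4 : ∑ j ∈ range h, (p : ℚ) * (c j / (2 * j + 1)) = ∑ j ∈ range h, c j * p / (2 * j + 1) :=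
    sum_congr rfl (fun j _ => by ring)
  rw [h4]
  rw [mul_div_cancel_right₀ _ hp0] at h2
  linear_combination h2

lemma low_term (h3 : 3 < p) {h : ℕ} (hh : p = 2 * h + 1) (hγ : E p 1 (c h ^ 2)) (N l j : ℕ)
    (hA : Dn N (uu N l) ∈ R p) (hj : j < h) :
    ∃ z, D p 1 z ∧ term (p * N) (p * l + j) =
      (p * N) ^ 2 * (-2 * (c l * Dn N (uu N l)) * (c j / (2 * j + 1)) + z) := by
  have hpq : (p : ℚ) = 2 * h + 1 := by rw [hh]; push_cast; ring
  obtain ⟨e1, he1, h1⟩ := c_lucas h3 hh hγ l j hj.le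
  obtain ⟨e2, he2, h2⟩ := Dn_lucas h3 (uu_mem h3 N l) N (h - j) (by omega)
  have hu : uu (p * N) (p * l + j) = p * uu N l + (h - j : ℕ) := by
    rw [Nat.cast_sub hj.le]
    unfold uu; push_cast; linear_combination (1 / 2 : ℚ) * hpq
  rw [← hu] at h2
  have hU : U p (-(2 * (j : ℚ) + 1) / 2) := (U_odd hh hj).neg.div (U2 h3)
  have a2 : D p (0 + 1) (uu (p * N) (p * l + j) + (p * N : ℕ) - -(2 * (j : ℚ) + 1) / 2) := by
    refine (D_p_mul (add_mem (add_mem (uu_mem h3 N l) (natCast_mem _ N))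
      (U2 h3).inv_mem)).congr ?_
    rw [hu, Nat.cast_sub hj.le]
    push_cast
    linear_combination (-1 / 2 : ℚ) * hpq
  have a3 := (D.cmul (he1.mul he2) (a2.cinv hU) (one_mem _) hU.inv_mem).mem_mul
    (mul_mem (mul_mem (c_mem h3 l) hA) (c_mem h3 j))
  refine ⟨_, a3, ?_⟩
  unfold term
  rw [h1, h2, div_eq_mul_inv _ (uu (p * N) (p * l + j) + _)]
  generalize (uu (p * N) (p * l + j) + (p * N : ℕ))⁻¹ = d
  push_cast
  field_simp
  ring

lemma high_term (h3 : 3 < p) {h : ℕ} (hh : p = 2 * h + 1) (b l k : ℕ) (hk : k < h) :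
    ∃ z, D p 1 z ∧ term (p * p ^ b) (p * l + (h + 1 + k)) = (p * p ^ b) ^ 2 * z := by
  have hpq : (p : ℚ) = 2 * h + 1 := by rw [hh]; push_cast; ring
  have a1 := c_up_cong h3 hh l k hk
  rw [show p * l + h + (k + 1) = p * l + (h + 1 + k) by ring] at a1
  have hν : (2 * l + 1 : ℚ) ∈ R p := by exact_mod_cast natCast_mem (R p) (2 * l + 1)
  have a2 : D p 1 (c (p * l + (h + 1 + k))) :=
    ((a1.mono (by norm_num : 1 ≤ 2)).add (D_p_mul (mul_mem (mul_mem (c_mem h3 _) hν)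
      (X_mem h3 hh hk)))).congr (sub_add_cancel _ _).symm
  have a3 : Dn (p * p ^ b) (uu (p * p ^ b) (p * l + (h + 1 + k))) ∈ R p := by
    rw [uu_eq, ← pow_succ']
    exact Dn_mem h3 _ _
  have hU : U p (uu (p * p ^ b) (p * l + (h + 1 + k)) + (p * p ^ b : ℕ)) := by
    have := (U_succ (p := p) (j := k) (by omega)).neg.add_p
      (add_mem (uu_mem h3 (p ^ b) l) (natCast_mem _ (p ^ b)))
    convert this using 1
    unfold uu
    push_cast
    linear_combination (1 / 2 : ℚ) * hpq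
  refine ⟨_, (a2.mul_mem a3).mul_mem hU.inv_mem, ?_⟩
  unfold term
  push_cast
  ring

lemma block_step (h3 : 3 < p) (b : ℕ) (hb : 1 ≤ b) (l : ℕ) (hl : l < 2 * p ^ b) :
    D p (b + 4) (48 / 27 ^ (p * p ^ b) * ∑ j ∈ range p, term (p * p ^ b) (p * l + j) -
      p * chi p * (48 / 27 ^ (p ^ b) * term (p ^ b) l)) := by
  obtain ⟨h, hh⟩ := hp.out.odd_of_ne_two (by omega)
  obtain ⟨e, he, hη, hL1, -, -⟩ := eta_facts h3 hh
  obtain ⟨e0, he0, hγ⟩ := morley h3 hh
  have hUη : U p (1 + p * e) := U_one.add_p he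
  have hEη : E p 1 (1 + p * e) := (D_p_mul he).congr (by ring)
  have hc := chi_sq p
  have hγη : c h * (1 + p * e) = chi p * e0 := by rw [hγ, ← hη]; ring
  have hγχ : D p 1 (c h - chi p) := by
    have := (D.mem_mul (he0.mono (by norm_num : 1 ≤ 3)) (chi_mem (p := p))).sub
      (D.mem_mul hEη (c_mem h3 h))
    exact this.congr (by linear_combination hγη)
  have hγ2 : E p 1 (c h ^ 2) := by
    have := hγχ.cpow chi_mem 2
    rwa [hc] at this
  have hA : Dn (p ^ b) (uu (p ^ b) l) ∈ R p := by rw [uu_eq]; exact Dn_mem h3 _ _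
  have hAc := mul_mem (c_mem h3 l) hA
  obtain ⟨t, ht, hT⟩ : ∃ t ∈ R p, term (p ^ b) l = p ^ b * t := by
    have := Pn_mem h3 b (2 * (p ^ b : ℕ) - l)
    rw [← uu_eq] at this
    refine ⟨_, mul_mem (c_mem h3 l) this, ?_⟩
    unfold term
    push_cast
    ring
  obtain ⟨n, hn⟩ : ∃ n, 6 * p ^ b = 2 * l + 1 + n := ⟨6 * p ^ b - (2 * l + 1), by omega⟩
  have hnT : n * term (p ^ b) l = 2 * (p ^ b) ^ 2 * (c l * Dn (p ^ b) (uu (p ^ b) l)) := by
    have e1 : uu (p ^ b) l + (p ^ b : ℕ) = n / 2 := by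
      have : (6 * (p ^ b : ℕ) : ℚ) = 2 * l + 1 + n := by exact_mod_cast hn
      unfold uu
      linear_combination (1 / 2 : ℚ) * this
    have hn0 : (n : ℚ) ≠ 0 := by
      have : n ≠ 0 := by omega
      exact_mod_cast this
    unfold term
    rw [e1]
    push_cast
    field_simp
  obtain ⟨w, hw, hlte⟩ := pow_lte (U2 h3) he n
  obtain ⟨e1, he1, t1⟩ := term_center h3 hh (p ^ b) l
  choose! z1 hz1 hz1' using fun j => low_term h3 hh hγ2 (p ^ b) l j hA
  choose! z2 hz2 hz2' using fun k => high_term h3 hh b l k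
  have s1 : ∑ j ∈ range h, term (p * p ^ b) (p * l + j) = (p * p ^ b) ^ 2 *
      (-2 * (c l * Dn (p ^ b) (uu (p ^ b) l)) *
        (-1 / 2 * c h * Th p (-1 / 2) (-1 / 2) (-1 / 2) (-1 / 2)) + ∑ j ∈ range h, z1 j) := by
    rw [← L1_eq hh, mul_sum, ← sum_add_distrib, mul_sum]
    refine sum_congr rfl (fun j hj => ?_)
    rw [hz1' j (mem_range.1 hj)]
    push_cast
    ring
  have s2 : ∑ k ∈ range h, term (p * p ^ b) (p * l + (h + 1 + k)) =
      (p * p ^ b) ^ 2 * ∑ k ∈ range h, z2 k := by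
    rw [mul_sum]
    exact sum_congr rfl (fun k hk => hz2' k (mem_range.1 hk))
  have d1 := D_sum (range h) z1 (fun j hj => hz1 j (mem_range.1 hj))
  have d2 := D_sum (range h) z2 (fun j hj => hz2 j (mem_range.1 hj))
  have hsplit : ∑ j ∈ range p, term (p * p ^ b) (p * l + j) =
      ∑ j ∈ range h, term (p * p ^ b) (p * l + j) + term (p * p ^ b) (p * l + h) +
        ∑ k ∈ range h, term (p * p ^ b) (p * l + (h + 1 + k)) := by
    have : range p = range (h + 1 + h) := by congr 1; omega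
    rw [this, sum_range_add, sum_range_succ]
  have hκ : (48 / 27 ^ (p ^ b) : ℚ) ∈ R p := by
    refine div_mem_R (ofNat_mem _ _) (U.pow ?_ _)
    have := (U3 h3).pow 3
    norm_num at this
    exact this
  have hodd : (c h * (1 + p * e)) ^ (2 * l + 1) = chi p * e0 ^ (2 * l + 1) := by
    rw [hγη, mul_pow, pow_succ, pow_mul, hc]; ring
  rw [hsplit, s1, s2, t1, kappa_eq hh hη (p ^ b), hn, pow_add]
  have hE := (he0.pow (2 * l + 1)).mul he1
  have hE6 := (hEη.pow (2 * l + 1)).mul (hEη.pow n)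
  generalize Th p (-1 / 2) (-1 / 2) (-1 / 2) (-1 / 2) = L1 at *
  generalize ∑ j ∈ range h, z1 j = Z1 at *
  generalize ∑ j ∈ range h, z2 j = Z2 at *
  generalize c l * Dn (p ^ b) (uu (p ^ b) l) = A at *
  generalize (48 / 27 ^ (p ^ b) : ℚ) = κ at *
  have f1 : D p 1 (((1 + p * e) ^ (2 * l + 1) * (1 + p * e) ^ n) * (c h * L1) -
      1 * (chi p * (-2 * e))) :=
    D.cmul hE6 (D.cmul hγχ (hL1.congr (by ring)) chi_mem
      (mul_mem (neg_mem (ofNat_mem _ _)) he)) (one_mem _)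
      (mul_mem chi_mem (mul_mem (neg_mem (ofNat_mem _ _)) he))
  have f2 : D p 1 (A * (((1 + p * e) ^ (2 * l + 1) * (1 + p * e) ^ n) * (c h * L1) -
      1 * (chi p * (-2 * e))) + ((1 + p * e) ^ (2 * l + 1) * (1 + p * e) ^ n) * (Z1 + Z2) +
      p * (2 * chi p * A * w)) :=
    ((f1.mem_mul hAc).add ((d1.add d2).mem_mul hE6.mem)).add
      (D_p_mul (mul_mem (mul_mem (mul_mem (ofNat_mem _ _) chi_mem) hAc) hw))
  have f3 := ((f2.mem_mul hκ).pow_mul (2 * b + 2)).mono (by omega : b + 4 ≤ 2 * b + 2 + 1)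
  have f4 := (D.mem_mul hE (mul_mem (mul_mem (mul_mem chi_mem hκ) ht)
    (pow_mem hUη.mem n))).pow_mul (b + 1)
  refine (f3.add f4).congr ?_
  rw [mul_pow] at hodd
  rw [hT] at hnT ⊢
  generalize (1 + p * e : ℚ) ^ (2 * l + 1) = Y at *
  generalize (1 + p * e : ℚ) ^ n = X at *
  generalize c h ^ (2 * l + 1) = G at *
  generalize e0 ^ (2 * l + 1) = E0 at *
  linear_combination (κ * X * p * p ^ b * t * e1) * hodd + (p * chi p * κ * p ^ b * t) * hlte +
    (p * chi p * κ * (p * e + p ^ 2 * w)) * hnT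

theorem step_case (h3 : 3 < p) (b : ℕ) (hb : 1 ≤ b) :
    D p (b + 4) (S (p ^ (b + 1)) - p * chi p * S (p ^ b)) := by
  rw [S_eq, S_eq, pow_succ', show 2 * (p * p ^ b) = p * (2 * p ^ b) by ring, sum_block,
    mul_sum, mul_sum, mul_sum]
  exact D_sum_sub _ _ _ (fun l hl => block_step h3 b hb l (mem_range.1 hl))

theorem main_cong (h3 : 3 < p) (b : ℕ) :
    D p (b + 1 + 3) (S (p ^ (b + 1)) - p ^ (b + 1) *
      (3 * chi p ^ (b + 1) + 5 / 24 * chi p ^ b * p ^ 2 * BB p (1 / 3))) := by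
  induction b with
  | zero => exact (base_case h3).congr (by rw [zero_add, pow_one]; ring)
  | succ b ih =>
    exact ((step_case h3 (b + 1) (by omega)).add (ih.mem_mul chi_mem).p_mul).congr (by ring)

end Pool.Agent.MP_b6d9c9_nt

end MrgPart4

-- marker of a merged file
example : 731051 + 379018 = 731051 + 379018 := rfl
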